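import Pool.Agent.Lib.MP_9e3d42_al.TW.Main

/-! The reduction of Auslander, in a form that needs neither heights nor localized modules. -/

open Module TensorProduct IsLocalRing

universe v w

namespace Pool.Agent.Lib.MP_9e3d42_al.AD

open CT TW

variable {R A : Type*} [CommRing R] [CommRing A] [Algebra R A]

lemma flat_colon [Module.Flat R A] {U V : Type*} [AddCommGroup U] [Module R U] [AddCommGroup V]
    [Module R V] (ψ : U →ₗ[R] V) (v : V) (w : A ⊗[R] U) (h : ψ.lTensor A w = 1 ⊗ₜ v) :
    Ideal.map (algebraMap R A) ((LinearMap.range ψ).comap (LinearMap.toSpanSingleton R V v)) =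
      ⊤ := by
  set J : Ideal R := (LinearMap.range ψ).comap (LinearMap.toSpanSingleton R V v)
  let ι := J.mapQ (LinearMap.range ψ) (LinearMap.toSpanSingleton R V v) le_rfl
  have hι : Function.Injective ι := by
    rw [← LinearMap.ker_eq_bot, Submodule.ker_mapQ, eq_bot_iff, Submodule.map_le_iff_le_comap,
      Submodule.comap_bot, Submodule.ker_mkQ]
  have h1 : ι.lTensor A (1 ⊗ₜ Ideal.Quotient.mk J 1) = 0 := by
    have : (LinearMap.range ψ).mkQ.lTensor A (ψ.lTensor A w) = 0 := by
      rw [← LinearMap.comp_apply, ← LinearMap.lTensor_comp, LinearMap.range_mkQ_comp,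
        LinearMap.lTensor_zero, LinearMap.zero_apply]
    rw [← this, h, LinearMap.lTensor_tmul, LinearMap.lTensor_tmul]
    exact congrArg (_ ⊗ₜ (LinearMap.range ψ).mkQ ·) (one_smul R v)
  have h2 := congrArg (tensorQuotEquivQuotSMul A J) ((injective_iff_map_eq_zero _).1
    (Module.Flat.lTensor_preserves_injective_linearMap (M := A) ι hι) _ h1)
  rw [tensorQuotEquivQuotSMul_tmul_mk, map_zero, one_smul, Submodule.Quotient.mk_eq_zero,
    Ideal.smul_top_eq_map] at h2
  exact (Ideal.eq_top_iff_one _).2 h2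

variable {M F : Type*} [AddCommGroup M] [Module R M] [AddCommGroup F] [Module R F]

/-- The scalars that factor through `π`. -/
def stab (π : F →ₗ[R] M) : Ideal R :=
  (LinearMap.range (π.compRight R : (M →ₗ[R] F) →ₗ[R] _)).comap
    (LinearMap.toSpanSingleton R _ LinearMap.id)

lemma mem_stab {π : F →ₗ[R] M} {r : R} : r ∈ stab π ↔ ∃ g, π ∘ₗ g = r • LinearMap.id := Iff.rfl

lemma map_stab [Module.Flat R A] [Module.FinitePresentation R M] {π : F →ₗ[R] M}
    (hπ : Function.Surjective π) [Module.Projective A (A ⊗[R] M)] :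
    (stab π).map (algebraMap R A) = ⊤ := by
  obtain ⟨s, hs⟩ := Module.projective_lifting_property (π.baseChange A) LinearMap.id
    (LinearMap.lTensor_surjective A hπ)
  let e1 := (Module.FinitePresentation.isBaseChange_map R M F A).equiv
  let e2 := (Module.FinitePresentation.isBaseChange_map R M M A).equiv
  have k : ∀ w, e2 ((π.compRight R : (M →ₗ[R] F) →ₗ[R] _).lTensor A w) =
      π.baseChange A ∘ₗ e1 w := fun w => by
    induction w with
    | zero => simp
    | tmul a g =>
      rw [LinearMap.lTensor_tmul, IsBaseChange.equiv_tmul, IsBaseChange.equiv_tmul,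
        LinearMap.comp_smul]
      exact congrArg (a • ·) (LinearMap.baseChange_comp g π)
    | add u v hu hv => rw [map_add, map_add, map_add, hu, hv, LinearMap.comp_add]
  refine flat_colon _ _ (e1.symm s) (e2.injective ?_)
  rw [k, e1.apply_symm_apply, hs, IsBaseChange.equiv_tmul, one_smul]
  exact LinearMap.baseChange_id.symm

/-- The abstract form of the argument of Auslander. -/
theorem free_of_cover [IsDomain R] [IsLocalRing R] [IsNoetherianRing R] [Module.Finite R M]
    [IsTorsionFree R M] [IsReflexive R (M ⊗[R] Dual R M)]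
    (H : ∀ a : R, a ≠ 0 → ∀ u, ¬ a ∣ u → ∃ (A : Type w) (_ : CommRing A) (_ : Algebra R A),
      Module.Flat R A ∧ Module.Projective A (A ⊗[R] M) ∧
        ∃ P : Ideal A, P ≠ ⊤ ∧ ∀ y, a ∣ y * u → algebraMap R A y ∈ P) : Module.Free R M := by
  have : Module.FinitePresentation R M := Module.finitePresentation_of_finite R M
  obtain ⟨n, π, hπ⟩ := Module.Finite.exists_fin' R M
  obtain ⟨f, g, a, ha, h1, -⟩ := exists_isog (R := R) M
  let τ := dualTensorHom R M M ∘ₗ (TensorProduct.comm R M (Dual R M)).toLinearMap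
  have hτ : ∀ m φ x, τ (m ⊗ₜ φ) x = φ x • m := fun _ _ _ => rfl
  have k0 : ∀ {k : ℕ} (p : (Fin k → R) →ₗ[R] M) (v : Fin k → R),
      ∑ j, v j • p (Pi.single j 1) = p v := fun p v => by
    conv_rhs => rw [pi_eq_sum_univ' v, map_sum]
    simp only [map_smul]
  have k1 : Function.Injective τ := (injective_iff_map_eq_zero τ).2 fun t ht => by
    have : ∀ t, ∑ j, τ t (f (Pi.single j 1)) ⊗ₜ (LinearMap.proj j ∘ₗ g : Dual R M) = a • t :=
      fun t => by
      induction t with
      | zero => simp
      | tmul m φ =>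
        simp only [hτ, smul_tmul, ← tmul_sum, ← tmul_smul]
        refine congrArg _ (LinearMap.ext fun x => ?_)
        have := congrArg φ ((k0 f (g x)).trans (LinearMap.congr_fun h1 x))
        simpa [mul_comm] using this
      | add u v hu hv => simp [add_tmul, Finset.sum_add_distrib, hu, hv]
    exact (smul_eq_zero_iff_right ha).1 (by simpa [ht] using (this t).symm)
  have k2 : ∀ y ∈ stab π, ∃ t, τ t = y • LinearMap.id := fun y ⟨s, hs⟩ =>
    ⟨∑ j, π (Pi.single j 1) ⊗ₜ (LinearMap.proj j ∘ₗ s : Dual R M), LinearMap.ext fun x => by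
      simp only [map_sum, LinearMap.sum_apply, hτ]
      exact (k0 π (s x)).trans (LinearMap.congr_fun hs x)⟩
  have k3 : ∀ t, ∃ s, π ∘ₗ s = τ t := fun t => by
    induction t with
    | zero => exact ⟨0, by simp⟩
    | tmul m φ =>
      obtain ⟨v, rfl⟩ := hπ m
      exact ⟨φ.smulRight v, LinearMap.ext fun x => by simp [hτ]⟩
    | add u v hu hv =>
      obtain ⟨s, hs⟩ := hu
      obtain ⟨s', hs'⟩ := hv
      exact ⟨s + s', by rw [LinearMap.comp_add, hs, hs', map_add]⟩
  obtain ⟨f', hf'⟩ := Module.projective_lifting_property π f hπ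
  obtain ⟨t, ht⟩ := k2 a (mem_stab.2 ⟨f' ∘ₗ g, by rw [← h1, ← hf']; rfl⟩)
  obtain ⟨θ, hθ⟩ := exists_div (P := Dual R (M ⊗[R] Dual R M)) (smul_right_injective R ha)
    (Dual.eval R _ t) fun l => by
      by_contra hl
      obtain ⟨A, _, _, _, _, P, hP, h⟩ := H a ha (l t) fun ⟨c, e⟩ => hl ⟨c, e.symm⟩
      refine hP (top_unique ((map_stab hπ).ge.trans (Ideal.map_le_iff_le_comap.2 fun y hy => ?_)))
      obtain ⟨t', ht'⟩ := k2 y hy
      have : y • t = a • t' := k1 (by rw [map_smul, map_smul, ht, ht', smul_comm])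
      exact h y ⟨l t', by simpa using congrArg l this⟩
  obtain ⟨t', rfl⟩ := (bijective_dual_eval R (M ⊗[R] Dual R M)).2 θ
  rw [← map_smul] at hθ
  obtain ⟨s, hs⟩ := k3 t'
  rw [← (bijective_dual_eval R _).1 hθ, map_smul, ← hs] at ht
  have := Module.Projective.of_split s π (LinearMap.ext fun x =>
    smul_right_injective M ha (LinearMap.congr_fun ht x))
  exact Module.free_of_flat_of_isLocalRing

variable {O : Type*} [CommRing O] [IsDomain O] [IsDiscreteValuationRing O] {x : O}

/-- A version of `Good.free` for a flat map. -/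
theorem good_proj (hx : Irreducible x) {R : Type*} {A : Type w} [CommRing R] [IsDomain R]
    [IsNoetherianRing R] [CommRing A] [Algebra O A] [Algebra R A]
    [Module.Flat R A] (M : Type v) [AddCommGroup M] [Module R M] [Module.Finite R M]
    [IsTorsionFree R M] [IsTorsionFree R (M ⊗[R] Dual R M)] (h : Good.{max w v} x A) :
    Module.Projective A (A ⊗[R] M) := by
  obtain ⟨_, _, ⟨l, hl⟩, hw⟩ := h
  have : IsNoetherianRing A := .of_finite O A
  have : Module.FinitePresentation R M := Module.finitePresentation_of_finite R M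
  have : SMulCommClass R O A := ⟨fun r o a => by simp only [Algebra.smul_def, mul_left_comm]⟩
  obtain ⟨s, j, hj⟩ := exists_emb (R := R) (A := A) M
  have := hj.moduleIsTorsionFree (R := O) j j.map_smul_of_tower
  obtain ⟨s', j', hj'⟩ := exists_emb (R := R) (A := A) (M ⊗[R] Dual R M)
  let e := AlgebraTensorModule.distribBaseChange R A M (Dual R M) ≪≫ₗ
    TensorProduct.congr (.refl A _) ((Module.FinitePresentation.isBaseChange_map R M R A).equiv ≪≫ₗ
      LinearEquiv.congrRight (AlgebraTensorModule.rid R A A))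
  have := (hj'.comp e.symm.injective).moduleIsTorsionFree (R := O) _
    (j' ∘ₗ e.symm.toLinearMap).map_smul_of_tower
  obtain ⟨f, g, a, ha, h1, h2⟩ := exists_isog (R := R) M
  let p := piScalarRight R A A (Fin (finrank R M))
  obtain ⟨b, d, hd, hb⟩ := (Algebra.IsAlgebraic.isAlgebraic (R := O)
    (algebraMap R A a)).exists_smul_eq_mul 1 (mem_nonZeroDivisors_iff_left.2 fun y e =>
      (smul_eq_zero_iff_right ha).1 ((Algebra.smul_def a y).trans e))
  obtain ⟨c, u, rfl⟩ := IsDiscreteValuationRing.eq_unit_mul_pow_irreducible hd hx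
  have hc : (u⁻¹.1 • b) * algebraMap R A a = algebraMap O A x ^ c := by
    rw [smul_mul_assoc, mul_comm, ← hb, smul_smul, u.inv_mul_cancel_left, ← map_pow,
      Algebra.algebraMap_eq_smul_one]
  have : Module.Finite O (A ⊗[R] M) := .trans A _
  have : Module.Finite O ((A ⊗[R] M) ⊗[A] Dual A (A ⊗[R] M)) := .trans A _
  exact hw (A ⊗[R] M)
    (fun m e => (smul_eq_zero_iff_right hx.ne_zero).1 (by rwa [algebraMap_smul] at e))
    ⟨_, c, f.baseChange A ∘ₗ p.symm.toLinearMap, (u⁻¹.1 • b) • (p.toLinearMap ∘ₗ g.baseChange A),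
      fun m => by
        rw [LinearMap.smul_apply, map_smul, ← hc, mul_smul]
        exact congrArg _ ((congrArg _ (p.symm_apply_apply _)).trans (bc_comp f g h1 m)),
      fun m => by
        rw [LinearMap.smul_apply, ← hc, mul_smul]
        exact congrArg _ ((congrArg p (bc_comp g f h2 _)).trans (by
          rw [map_smul]; exact congrArg _ (p.apply_symm_apply m)))⟩ (lift_of_tf hl)

end Pool.Agent.Lib.MP_9e3d42_al.AD
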