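import Mathlib

/-!
Regular local rings: systems of parameters, projective dimension and the theorem of Serre.
A universe polymorphic copy of the files PopReg, PopPD, PopCR, PopSerre of MP_a37f0b_ag.
-/

open Function IsLocalRing CategoryTheory

universe u

namespace Pool.Agent.Lib.MP_9e3d42_al.AD

variable {R L L₁ : Type u} [CommRing R] [CommRing L] [CommRing L₁]

/-- The ideal `m` is generated modulo `J` by a regular sequence of length `d`. -/
inductive RS (m : Ideal L) : Ideal L → ℕ → Prop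
  | zero : RS m m 0
  | succ (J : Ideal L) (d : ℕ) (x : L) : x ∈ m → (∀ μ, x * μ ∈ J → μ ∈ J) →
      RS m (J ⊔ Ideal.span {x}) d → RS m J (d + 1)

/-- Projective dimension at most `n`. -/
def PD (R : Type u) [CommRing R] (M : Type u) [AddCommGroup M] [Module R M] (n : ℕ) : Prop :=
  CategoryTheory.HasProjectiveDimensionLE (ModuleCat.of R M) n

lemma ch_mem_sup {I : Ideal L} {ε μ : L} :
    μ ∈ I ⊔ Ideal.span {ε} ↔ ∃ i ∈ I, ∃ ν, μ = i + ε * ν := by
  simp only [Submodule.mem_sup, Ideal.mem_span_singleton']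
  constructor
  · rintro ⟨i, hi, _, ⟨ν, rfl⟩, rfl⟩
    exact ⟨i, hi, ν, by ring⟩
  · rintro ⟨i, hi, ν, rfl⟩
    exact ⟨i, hi, _, ⟨ν, rfl⟩, by ring⟩

theorem RS.le {m J : Ideal L} {d : ℕ} (h : RS m J d) : J ≤ m := by
  induction h with
  | zero => exact le_rfl
  | succ J d x _ _ _ ih => exact le_sup_left.trans ih

theorem RS.comap {m J : Ideal L₁} {d : ℕ} (h : RS m J d) {θ : L →+* L₁} (hθ : Surjective θ) :
    RS (m.comap θ) (J.comap θ) d := by
  induction h with
  | zero => exact RS.zero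
  | succ J d x h1 h2 _ ih =>
    obtain ⟨x, rfl⟩ := hθ x
    refine RS.succ _ d x h1 (fun μ hμ => h2 _ (by rwa [← map_mul])) ?_
    rwa [show J.comap θ ⊔ Ideal.span {x} = (J ⊔ Ideal.span {θ x}).comap θ from ?_]
    ext z
    rw [Ideal.mem_comap, ch_mem_sup, ch_mem_sup]
    constructor
    · rintro ⟨i, hi, ν, rfl⟩
      exact ⟨θ i, hi, θ ν, by simp⟩
    · rintro ⟨i, hi, ν, e⟩
      obtain ⟨ν, rfl⟩ := hθ ν
      exact ⟨z - x * ν, by simpa [e] using hi, ν, by ring⟩

lemma rg_local [IsLocalRing R] {x : R} (hx : x ∈ maximalIdeal R) :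
    IsLocalRing (R ⧸ Ideal.span {x}) :=
  have := Ideal.Quotient.nontrivial_iff.2 (Ideal.span_singleton_ne_top hx)
  .of_surjective' _ Ideal.Quotient.mk_surjective

lemma rg_drop [IsLocalRing R] [IsNoetherianRing R] {x : R} (hx : x ∈ maximalIdeal R)
    (hx2 : x ∉ maximalIdeal R ^ 2) [IsLocalRing (R ⧸ Ideal.span {x})] :
    (maximalIdeal (R ⧸ Ideal.span {x})).spanFinrank + 1 ≤ (maximalIdeal R).spanFinrank := by
  classical
  obtain ⟨s, hs, e⟩ := Submodule.FG.exists_span_finset_card_eq_spanFinrank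
    (maximalIdeal R).fg_of_isNoetherianRing
  obtain ⟨c, -, hc⟩ := Submodule.mem_span_finset.1 (e.ge hx)
  obtain ⟨y, hy, hu⟩ : ∃ y ∈ s, IsUnit (c y) := by
    by_contra! h
    exact hx2 (hc ▸ pow_two (maximalIdeal R) ▸ Ideal.sum_mem _ fun y hy =>
      Ideal.mul_mem_mul (h y hy) (e.le (Submodule.subset_span hy)))
  have h1 : maximalIdeal (R ⧸ Ideal.span {x}) =
      Ideal.span ((s.erase y).image (Ideal.Quotient.mk (Ideal.span {x})) : Finset _) := by
    rw [← map_maximalIdeal_of_surjective _ Ideal.Quotient.mk_surjective, Finset.coe_image,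
      ← Ideal.map_span]
    refine le_antisymm (Ideal.map_le_iff_le_comap.2 (e.ge.trans (Ideal.span_le.2 fun z hz => ?_)))
      (Ideal.map_mono ((Ideal.span_mono (by simp)).trans e.le))
    by_cases hz' : z = y
    · rw [hz', SetLike.mem_coe, ← Ideal.unit_mul_mem_iff_mem _ hu, ← smul_eq_mul,
        eq_sub_of_add_eq ((Finset.add_sum_erase s (fun a => c a • a) hy).trans hc)]
      refine sub_mem ?_ (Ideal.le_comap_map (Ideal.sum_mem _ fun a ha =>
        Ideal.mul_mem_left _ _ (Ideal.subset_span ha)))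
      rw [Ideal.mem_comap, Ideal.Quotient.eq_zero_iff_mem.2 (Ideal.mem_span_singleton_self x)]
      exact zero_mem _
    · exact Ideal.le_comap_map (Ideal.subset_span (by simp [hz', hz]))
  rw [h1, ← hs, ← Finset.card_erase_add_one hy, add_le_add_iff_right]
  exact (Submodule.spanFinrank_span_le_ncard_of_finite (Finset.finite_toSet _)).trans
    ((Set.ncard_coe_finset _).trans_le Finset.card_image_le)

theorem reg_quot [IsRegularLocalRing R] {x : R} (hx : x ∈ maximalIdeal R)
    (hx2 : x ∉ maximalIdeal R ^ 2) : IsRegularLocalRing (R ⧸ Ideal.span {x}) := by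
  have := rg_local hx
  refine IsRegularLocalRing.of_spanFinrank_maximalIdeal_le _
    (ENat.WithBot.add_le_add_one_right_iff.1 ?_)
  have h1 := ringKrullDim_le_ringKrullDim_quotient_add_encard {x}
    (by simpa [ringJacobson_eq_maximalIdeal] using hx)
  rw [Set.encard_singleton, ← IsRegularLocalRing.spanFinrank_maximalIdeal] at h1
  refine le_trans ?_ h1
  exact_mod_cast rg_drop hx hx2

lemma rg_nak [IsLocalRing R] [IsNoetherianRing R] {P : Ideal R} (h : P ≤ maximalIdeal R * P) :
    P = ⊥ :=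
  Submodule.eq_bot_of_le_smul_of_le_jacobson_bot _ P P.fg_of_isNoetherianRing h
    (maximalIdeal_le_jacobson _)

lemma rg_main (n : ℕ) : ∀ (R : Type u) [CommRing R] [IsRegularLocalRing R],
    (maximalIdeal R).spanFinrank = n → IsDomain R ∧ ∃ d, RS (maximalIdeal R) ⊥ d := by
  induction n using Nat.strong_induction_on with | _ n ih =>
  intro R _ _ hn
  by_cases h0 : maximalIdeal R = ⊥
  · exact ⟨(isField_iff_maximalIdeal_eq.2 h0).isDomain, 0, h0 ▸ RS.zero⟩
  obtain ⟨x, hx, hx'⟩ := Set.not_subset.1 (mt (Ideal.subset_union_prime_finite (f := id)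
    ((minimalPrimes.finite_of_isNoetherianRing R).insert (maximalIdeal R ^ 2))
    (maximalIdeal R ^ 2) (maximalIdeal R ^ 2)
    (fun P hP h _ => Ideal.IsMinimalPrime.isPrime (hP.resolve_left h)) (I := maximalIdeal R)).1 (by
      rintro ⟨P, rfl | hP, h⟩
      · exact h0 (rg_nak (h.trans_eq (pow_two _)))
      · have := Ideal.IsMinimalPrime.isPrime hP
        have e : maximalIdeal R = P := h.antisymm (le_maximalIdeal this.ne_top)
        have h1 := IsRegularLocalRing.spanFinrank_maximalIdeal (R := R)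
        rw [← maximalIdeal_height_eq_ringKrullDim, Ideal.height_eq_zero_iff.2 (e ▸ hP)] at h1
        exact h0 ((Submodule.spanFinrank_eq_zero_iff_eq_bot
          (maximalIdeal R).fg_of_isNoetherianRing).1 (by exact_mod_cast h1))))
  simp only [Set.mem_iUnion, not_exists] at hx'
  have hx2 : x ∉ maximalIdeal R ^ 2 := hx' _ (Set.mem_insert _ _)
  have := reg_quot hx hx2
  obtain ⟨h1, d, h2⟩ := ih _ (hn ▸ rg_drop hx hx2) (R ⧸ Ideal.span {x}) rfl
  have := (Ideal.Quotient.isDomain_iff_prime _).1 h1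
  obtain ⟨P, hP, h3⟩ := Ideal.exists_minimalPrimes_le (bot_le : ⊥ ≤ Ideal.span {x})
  have h4 := Ideal.IsMinimalPrime.isPrime hP
  obtain rfl : P = ⊥ := rg_nak fun y hy => by
    obtain ⟨c, rfl⟩ := Ideal.mem_span_singleton.1 (h3 hy)
    exact Ideal.mul_mem_mul hx ((h4.mem_or_mem hy).resolve_left (hx' P (Or.inr hP)))
  refine ⟨IsDomain.of_bot_isPrime R, d + 1, RS.succ ⊥ d x hx
    (fun μ h => (h4.mem_or_mem h).resolve_left (hx' ⊥ (Or.inr hP))) ?_⟩
  have h5 := h2.comap Ideal.Quotient.mk_surjective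
  have := IsLocalHom.of_surjective _ (Ideal.Quotient.mk_surjective (I := Ideal.span {x}))
  rwa [maximalIdeal_comap, ← RingHom.ker_eq_comap_bot, Ideal.mk_ker,
    ← bot_sup_eq (Ideal.span {x})] at h5

theorem reg_domain [IsRegularLocalRing R] : IsDomain R := by
  exact (rg_main _ R rfl).1

theorem reg_rs [IsRegularLocalRing R] : ∃ d, RS (maximalIdeal R) ⊥ d := by
  exact (rg_main _ R rfl).2

lemma pd_equiv {M N : Type u} [AddCommGroup M] [Module R M] [AddCommGroup N] [Module R N] {n : ℕ}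
    (e : M ≃ₗ[R] N) (h : PD R M n) : PD R N n := by
  unfold PD at h ⊢
  exact ModuleCat.hasProjectiveDimensionLE_of_linearEquiv (M := ModuleCat.of R M)
    (N := ModuleCat.of R N) e n

lemma pd_succ {M : Type u} [AddCommGroup M] [Module R M] {n : ℕ} (h : PD R M n) :
    PD R M (n + 1) := by
  unfold PD at h ⊢
  exact hasProjectiveDimensionLT_of_ge _ (n + 1) (n + 1 + 1) (Nat.le_succ _)

/-- The projection `R/I → R/(I + a)` and its kernel. -/
lemma pd_proj (I : Ideal R) (a : R) : ∃ g : (R ⧸ I) →ₗ[R] (R ⧸ (I ⊔ Ideal.span {a})),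
    Surjective g ∧ ∀ x, g x = 0 ↔ ∃ y, a • y = x := by
  refine ⟨Submodule.factor (le_sup_left : I ≤ I ⊔ Ideal.span {a}), Submodule.factor_surjective _,
    fun x => ?_⟩
  obtain ⟨x, rfl⟩ := Submodule.mkQ_surjective I x
  rw [Submodule.factor_mk, Submodule.mkQ_apply, Submodule.Quotient.mk_eq_zero]
  constructor
  · intro h
    obtain ⟨i, hi, z, hz, rfl⟩ := Submodule.mem_sup.1 h
    obtain ⟨y, rfl⟩ := Ideal.mem_span_singleton'.1 hz
    refine ⟨Submodule.mkQ I y, ?_⟩
    rw [← map_smul, Submodule.mkQ_apply, Submodule.mkQ_apply, Submodule.Quotient.eq]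
    simpa [mul_comm] using hi
  · rintro ⟨y, hy⟩
    obtain ⟨y, rfl⟩ := Submodule.mkQ_surjective I y
    rw [← map_smul, Submodule.mkQ_apply, Submodule.mkQ_apply, Submodule.Quotient.eq] at hy
    have : x = -(a • y - x) + y * a := by simp [mul_comm]
    rw [this]
    exact Submodule.add_mem_sup (I.neg_mem hy) (Ideal.mem_span_singleton'.2 ⟨y, rfl⟩)

/-- The sequence `0 → R/(I : a) → R/I → R/(I + a) → 0`. -/
lemma pd_ses (I I' : Ideal R) (a : R) (h : ∀ μ, μ ∈ I' ↔ a * μ ∈ I) (n : ℕ) :
    (PD R (R ⧸ I') n → PD R (R ⧸ (I ⊔ Ideal.span {a})) n → PD R (R ⧸ I) n) ∧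
    (PD R (R ⧸ I') n → PD R (R ⧸ I) (n + 1) → PD R (R ⧸ (I ⊔ Ideal.span {a})) (n + 1)) ∧
    (PD R (R ⧸ I) n → PD R (R ⧸ (I ⊔ Ideal.span {a})) (n + 1) → PD R (R ⧸ I') n) := by
  obtain ⟨g, g1, g2⟩ := pd_proj I a
  let f : (R ⧸ I') →ₗ[R] (R ⧸ I) := Submodule.mapQ I' I (LinearMap.mulLeft R a) fun μ hμ => (h μ).1 hμ
  have hf : ∀ y, f (Submodule.mkQ I' y) = a • Submodule.mkQ I y := fun y => rfl
  have ex : Function.Exact f g := fun x => by
    rw [g2]
    constructor
    · rintro ⟨y, rfl⟩
      obtain ⟨y, rfl⟩ := Submodule.mkQ_surjective I y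
      exact ⟨_, hf y⟩
    · rintro ⟨y, rfl⟩
      obtain ⟨y, rfl⟩ := Submodule.mkQ_surjective I' y
      exact ⟨_, (hf y).symm⟩
  have inj : Injective f := (injective_iff_map_eq_zero f).2 fun y hy => by
    obtain ⟨y, rfl⟩ := Submodule.mkQ_surjective I' y
    rw [hf, ← map_smul, Submodule.mkQ_apply, Submodule.Quotient.mk_eq_zero] at hy
    rw [Submodule.mkQ_apply, Submodule.Quotient.mk_eq_zero]
    exact (h y).2 hy
  have hS := ModuleCat.shortComplex_shortExact
    (ModuleCat.shortComplexOfCompEqZero f g ex.linearMap_comp_eq_zero) ex inj g1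
  exact ⟨fun h1 h3 => hS.hasProjectiveDimensionLT_X₂ (n + 1) h1 h3,
    fun h1 h2 => hS.hasProjectiveDimensionLT_X₃ (n + 1) h1 h2,
    fun h1 h2 => hS.hasProjectiveDimensionLT_X₁ (n + 1) h1 h2⟩

theorem RS.pd {m J : Ideal R} {d n : ℕ} (h : RS m J d) (H : PD R (R ⧸ J) n) :
    PD R (R ⧸ m) (n + d) := by
  induction h generalizing n with
  | zero => exact H
  | succ J d x _ hx _ ih =>
    have := ih ((pd_ses J J x (fun μ => ⟨fun h => J.mul_mem_left x h, hx μ⟩) n).2.1 H (pd_succ H))
    rwa [add_assoc, add_comm 1 d] at this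

theorem pd_bot : PD R (R ⧸ (⊥ : Ideal R)) 0 := by
  refine pd_equiv (Submodule.quotEquivOfEqBot (⊥ : Ideal R) rfl).symm ?_
  unfold PD
  exact (projective_iff_hasProjectiveDimensionLE_zero _).1
    (ModuleCat.projective_of_categoryTheory_projective _)

lemma pd_top (n : ℕ) : PD R (R ⧸ (⊤ : Ideal R)) n := by
  unfold PD
  have := (ModuleCat.isZero_of_subsingleton
    (ModuleCat.of R (R ⧸ (⊤ : Ideal R)))).hasProjectiveDimensionLT_zero
  exact hasProjectiveDimensionLT_of_ge _ 0 (n + 1) (Nat.zero_le _)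

lemma pd_reg [IsLocalRing R] [IsNoetherianRing R] {n : ℕ} {I : Ideal R} {x : R}
    (hx : x ∈ maximalIdeal R) (hr : ∀ μ, x * μ ∈ I → μ ∈ I)
    (h : PD R (R ⧸ (I ⊔ Ideal.span {x})) n) : PD R (R ⧸ I) n := by
  obtain ⟨g, g1, g2⟩ := pd_proj I x
  have reg : IsSMulRegular (R ⧸ I) x := by
    refine .of_right_eq_zero_of_smul fun y hy => ?_
    obtain ⟨y, rfl⟩ := Submodule.mkQ_surjective I y
    rw [← map_smul, Submodule.mkQ_apply, Submodule.Quotient.mk_eq_zero] at hy
    rw [Submodule.mkQ_apply, Submodule.Quotient.mk_eq_zero]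
    exact hr y hy
  have e : (R ⧸ (I ⊔ Ideal.span {x})) ≃ₗ[R] QuotSMulTop x (R ⧸ I) :=
    (g.quotKerEquivOfSurjective g1).symm.trans (Submodule.quotEquivOfEq _ _ (by
      ext y
      rw [LinearMap.mem_ker, g2, Submodule.mem_smul_pointwise_iff_exists]
      simp))
  have h1 := (projectiveDimension_le_iff _ _).2 (pd_equiv e h)
  rw [ModuleCat.projectiveDimension_quotSMulTop_eq_succ_of_isSMulRegular
    (ModuleCat.of R (R ⧸ I)) x reg hx] at h1
  refine (projectiveDimension_le_iff _ _).1 (le_trans ?_ h1)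
  exact le_add_of_nonneg_right zero_le_one

theorem pd_all [IsLocalRing R] [IsNoetherianRing R] {n : ℕ} (h : PD R (R ⧸ maximalIdeal R) n)
    (I : Ideal R) : PD R (R ⧸ I) n := by
  induction I using IsNoetherian.induction with | hgt I ih =>
  have lt : ∀ a, a ∉ I → I < I ⊔ Ideal.span {a} := fun a ha =>
    lt_of_le_of_ne le_sup_left fun e => ha (e ▸ Ideal.mem_sup_right (Ideal.mem_span_singleton_self a))
  by_cases h1 : I = ⊤
  · exact h1 ▸ pd_top n
  by_cases h2 : ∀ a b, a * b ∈ I → a ∈ I ∨ b ∈ I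
  · by_cases h3 : maximalIdeal R ≤ I
    · exact le_antisymm h3 (le_maximalIdeal h1) ▸ h
    · obtain ⟨x, hx, hx'⟩ := SetLike.not_le_iff_exists.1 h3
      exact pd_reg hx (fun μ hμ => (h2 x μ hμ).resolve_left hx') (ih _ (lt x hx'))
  · push Not at h2
    obtain ⟨a, b, hab, ha, hb⟩ := h2
    have hm : ∀ μ, μ ∈ Submodule.comap (LinearMap.mulLeft R a) I ↔ a * μ ∈ I := fun μ => Iff.rfl
    refine (pd_ses I _ a hm n).1 (ih _ ?_) (ih _ (lt a ha))
    exact lt_of_le_of_ne (fun μ hμ => (hm μ).2 (Ideal.mul_mem_left I a hμ))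
      fun e => hb (e ▸ (hm b).2 hab)

attribute [local instance] RingHomInvPair.of_ringEquiv in
theorem pd_loc [Algebra R L] (T : Submonoid R) [IsLocalization T L] {I : Ideal R} {n : ℕ}
    (h : PD R (R ⧸ I) n) : PD L (L ⧸ I.map (algebraMap R L)) n := by
  unfold PD at h
  let M := ModuleCat.of R (R ⧸ I)
  have h1 := ModuleCat.localizedModule_hasProjectiveDimensionLE n T M
  let g := Submodule.toLocalizedQuotient' L T (Algebra.linearMap R L) I
  have i1 := ModuleCat.localizedModule_isLocalizedModule M T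
  let φ := IsLocalizedModule.linearEquiv T (M.localizedModuleMkLinearMap T) g
  let e : Localization T ≃+* L := (IsLocalization.algEquiv T (Localization T) L).toRingEquiv
  have he : ∀ r, e (algebraMap R _ r) = algebraMap R L r :=
    (IsLocalization.algEquiv T (Localization T) L).commutes
  have h2 : PD L (L ⧸ I.localized' L T (Algebra.linearMap R L)) n := by
    unfold PD
    refine ModuleCat.hasProjectiveDimensionLE_of_semiLinearEquiv e (M := M.localizedModule T)
      (N := ModuleCat.of L (L ⧸ I.localized' L T (Algebra.linearMap R L)))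
      { φ.toAddEquiv with map_smul' := fun z m => ?_ } n
    obtain ⟨⟨r, s⟩, hz⟩ := IsLocalization.surj T z
    have hu := (IsLocalization.map_units L s).smul_left_cancel
      (x := φ (z • m)) (y := e z • φ m)
    refine hu.1 ?_
    rw [smul_smul, ← he, ← map_mul, mul_comm, hz, he, he, algebraMap_smul, algebraMap_smul,
      ← map_smul, ← map_smul, ← algebraMap_smul (Localization T) (s : R), smul_smul, mul_comm, hz,
      algebraMap_smul]
  exact pd_equiv (Submodule.quotEquivOfEq _ _ (Ideal.localized'_eq_map L T I)) h2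

lemma cr_zero {M : Type u} [AddCommGroup M] [Module R M] : PD R M 0 ↔ Module.Projective R M :=
  ((IsProjective.iff_projective M).trans
    (CategoryTheory.projective_iff_hasProjectiveDimensionLE_zero _)).symm

lemma cr_succ {K F M : Type u} [AddCommGroup K] [Module R K] [AddCommGroup F] [Module R F]
    [AddCommGroup M] [Module R M] [Module.Projective R F] (i : K →ₗ[R] F) (f : F →ₗ[R] M)
    (hi : Injective i) (he : Exact i f) (hf : Surjective f) (n : ℕ) :
    PD R M (n + 1) ↔ PD R K n :=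
  (ModuleCat.shortComplex_shortExact (ModuleCat.shortComplexOfCompEqZero i f
    he.linearMap_comp_eq_zero) he hi hf).hasProjectiveDimensionLT_X₃_iff n
    ((IsProjective.iff_projective F).1 ‹_›)

theorem pd_cr [IsNoetherianRing R] {x : R} (hx : IsSMulRegular R x) {n : ℕ} {M : Type u}
    [AddCommGroup M] [Module R M] [Module.Finite R M] (hM : IsSMulRegular M x) (h : PD R M n) :
    PD (R ⧸ Ideal.span {x}) (QuotSMulTop x M) n := by
  have hs : Surjective (algebraMap R (R ⧸ Ideal.span {x})) := Ideal.Quotient.mk_surjective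
  induction n generalizing M with
  | zero =>
    have := cr_zero.1 h
    exact cr_zero.2 (Module.Projective.of_equiv
      ((QuotSMulTop.equivQuotTensor x M).extendScalarsOfSurjective hs).symm)
  | succ n ih =>
    obtain ⟨m, f, hf⟩ := Module.Finite.exists_fin' R M
    have hF : IsSMulRegular (Fin m → R) x := fun a b e => funext fun i => hx (congrFun e i)
    have he : Exact (LinearMap.ker f).subtype f := f.exact_subtype_ker_map
    have hi := (LinearMap.ker f).injective_subtype
    have h0 : Exact (0 : PUnit →ₗ[R] LinearMap.ker f) (LinearMap.ker f).subtype :=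
      (LinearMap.exact_zero_iff_injective _ _).2 hi
    have h1 := QuotSMulTop.map_first_exact_on_four_term_exact_of_isSMulRegular_last h0 he hM
    rw [map_zero, LinearMap.exact_zero_iff_injective] at h1
    exact (cr_succ ((QuotSMulTop.map x (LinearMap.ker f).subtype).extendScalarsOfSurjective hs)
      ((QuotSMulTop.map x f).extendScalarsOfSurjective hs) h1 (QuotSMulTop.map_exact x he hf)
      (QuotSMulTop.map_surjective x hf) n).2
      (ih (hF.of_injective _ hi) ((cr_succ _ f hi he hf n).1 h))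

theorem pd_step [IsLocalRing R] [IsNoetherianRing R] {x : R} (hx : IsSMulRegular R x)
    (h1 : x ∈ maximalIdeal R) (h2 : x ∉ maximalIdeal R ^ 2) {n : ℕ}
    (h : PD R (R ⧸ maximalIdeal R) (n + 1)) :
    PD (R ⧸ Ideal.span {x}) ((R ⧸ Ideal.span {x}) ⧸
      (maximalIdeal R).map (Ideal.Quotient.mk (Ideal.span {x}))) n := by
  have hs : Surjective (algebraMap R (R ⧸ Ideal.span {x})) := Ideal.Quotient.mk_surjective
  have hi := (maximalIdeal R).injective_subtype
  have h3 : PD _ (QuotSMulTop x (maximalIdeal R)) n := pd_cr hx (hx.of_injective _ hi)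
    ((cr_succ _ _ hi (LinearMap.exact_subtype_mkQ _) (Submodule.mkQ_surjective _) n).1 h)
  obtain ⟨g, hg⟩ := Module.Projective.exists_dual_eq_one (ResidueField R)
    (show (maximalIdeal R).toCotangent ⟨x, h1⟩ ≠ 0 from fun e =>
      h2 ((Ideal.toCotangent_eq_zero _ _).1 e))
  obtain ⟨φ, hφ⟩ : ∃ φ : maximalIdeal R →ₗ[R] R ⧸ maximalIdeal R, φ ⟨x, h1⟩ = 1 :=
    ⟨g.restrictScalars R ∘ₗ (maximalIdeal R).toCotangent, hg⟩
  let e := (DoubleQuot.quotQuotEquivQuotOfLEₐ R
    ((Ideal.span_singleton_le_iff_mem _).2 h1)).toLinearEquiv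
  let i : (R ⧸ maximalIdeal R) →ₗ[R] QuotSMulTop x (maximalIdeal R) := Submodule.liftQ _
    (LinearMap.toSpanSingleton R _ (Submodule.Quotient.mk ⟨x, h1⟩)) fun a ha => by
      rw [LinearMap.mem_ker, LinearMap.toSpanSingleton_apply, ← Submodule.Quotient.mk_smul,
        Submodule.Quotient.mk_eq_zero,
        show a • (⟨x, h1⟩ : maximalIdeal R) = x • (⟨a, ha⟩ : maximalIdeal R) from
          Subtype.ext (mul_comm a x)]
      exact Submodule.smul_mem_pointwise_smul _ _ _ trivial
  let r : QuotSMulTop x (maximalIdeal R) →ₗ[R] R ⧸ maximalIdeal R := Submodule.liftQ _ φ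
    fun a ha => by
      obtain ⟨b, -, rfl⟩ := (Submodule.mem_smul_pointwise_iff_exists _ _ _).1 ha
      rw [LinearMap.mem_ker, map_smul, Algebra.smul_def, Ideal.Quotient.algebraMap_eq,
        Ideal.Quotient.eq_zero_iff_mem.2 h1, zero_mul]
  have hr : ∀ z, r (i z) = z := fun z => by
    obtain ⟨a, rfl⟩ := Submodule.Quotient.mk_surjective _ z
    change r (a • Submodule.Quotient.mk ⟨x, h1⟩) = _
    rw [map_smul]
    change a • φ _ = _
    rw [hφ, Algebra.smul_def, mul_one]
    rfl
  exact @CategoryTheory.Retract.hasProjectiveDimensionLT _ _ _ (ModuleCat.of _ _) (ModuleCat.of _ _)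
    ⟨ModuleCat.ofHom ((i ∘ₗ e.toLinearMap).extendScalarsOfSurjective hs),
      ModuleCat.ofHom ((e.symm.toLinearMap ∘ₗ r).extendScalarsOfSurjective hs),
      ModuleCat.hom_ext (LinearMap.ext fun z => (congrArg e.symm (hr (e z))).trans
        (e.symm_apply_apply z))⟩ _ h3

section aux

variable [IsLocalRing R]

/-- A local ring whose residue field is projective is a field. -/
lemma se_zero (h : PD R (R ⧸ maximalIdeal R) 0) : maximalIdeal R = ⊥ := by
  have : Module.Projective R (R ⧸ maximalIdeal R) := (IsProjective.iff_projective _).2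
    ((CategoryTheory.projective_iff_hasProjectiveDimensionLE_zero _).2 h)
  obtain ⟨s, hs⟩ := Module.projective_lifting_property (maximalIdeal R).mkQ LinearMap.id
    (Submodule.mkQ_surjective _)
  have h1 : Ideal.Quotient.mk (maximalIdeal R) (s 1) = 1 := LinearMap.congr_fun hs 1
  have h2 : IsUnit (s 1) := by
    by_contra hu
    rw [Ideal.Quotient.eq_zero_iff_mem.2 ((mem_maximalIdeal _).2 hu)] at h1
    exact zero_ne_one (α := ResidueField R) h1
  refine eq_bot_iff.2 fun r hr => h2.mul_left_eq_zero.1 ?_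
  have h3 : r • (1 : R ⧸ maximalIdeal R) = 0 := by
    rw [Algebra.smul_def, mul_one]
    exact Ideal.Quotient.eq_zero_iff_mem.2 hr
  rw [← smul_eq_mul, ← map_smul, h3, map_zero]

/-- In depth zero the projective dimension of the residue field drops. -/
lemma se_socle [IsNoetherianRing R] {n : ℕ} (h : PD R (R ⧸ maximalIdeal R) (n + 1)) {a : R}
    (ha : a ≠ 0) (hm : ∀ r ∈ maximalIdeal R, r * a = 0) : PD R (R ⧸ maximalIdeal R) n := by
  have h1 : CategoryTheory.HasProjectiveDimensionLE
      (ModuleCat.of R (LinearMap.ker (Ideal.span {a}).mkQ)) n :=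
    (LinearMap.shortExact_shortComplexKer
      (Submodule.mkQ_surjective (Ideal.span {a}))).hasProjectiveDimensionLT_X₁ (n + 1)
      (inferInstanceAs (CategoryTheory.HasProjectiveDimensionLT (ModuleCat.of R R) (n + 1)))
      (pd_all h (Ideal.span {a}))
  have h2 : maximalIdeal R = LinearMap.ker (LinearMap.toSpanSingleton R R a) :=
    (maximalIdeal.isMaximal R).eq_of_le (fun e => ha (by
      simpa using (Ideal.eq_top_iff_one _).1 e)) hm
  have h3 : LinearMap.range (LinearMap.toSpanSingleton R R a) =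
      LinearMap.ker (Ideal.span {a}).mkQ := by
    rw [Submodule.ker_mkQ, ← LinearMap.span_singleton_eq_range]
  exact ModuleCat.hasProjectiveDimensionLE_of_linearEquiv
    (M := ModuleCat.of R (LinearMap.ker (Ideal.span {a}).mkQ))
    (N := ModuleCat.of R (R ⧸ maximalIdeal R))
    ((Submodule.quotEquivOfEq _ _ h2).trans ((LinearMap.quotKerEquivRange _).trans
      (LinearEquiv.ofEq _ _ h3))).symm n

/-- In positive depth there is a regular element outside the square of the maximal ideal. -/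
lemma se_avoid [IsNoetherianRing R] (h0 : maximalIdeal R ≠ ⊥)
    (h : ∀ a : R, (∀ r ∈ maximalIdeal R, r * a = 0) → a = 0) :
    ∃ x ∈ maximalIdeal R, x ∉ maximalIdeal R ^ 2 ∧ IsSMulRegular R x := by
  classical
  by_contra! H
  obtain ⟨P, hP, hle⟩ := (Ideal.subset_union_prime (f := id) (I := maximalIdeal R)
    (s := insert (maximalIdeal R ^ 2) (associatedPrimes.finite R R).toFinset)
    (maximalIdeal R ^ 2) (maximalIdeal R ^ 2) (fun P hP h1 _ => by
      rw [Finset.mem_insert, Set.Finite.mem_toFinset] at hP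
      exact (hP.resolve_left h1).isPrime)).1 fun x hx => by
      by_cases h2 : x ∈ maximalIdeal R ^ 2
      · exact Set.mem_biUnion (x := maximalIdeal R ^ 2) (by simp) h2
      · obtain ⟨P, hP, hxP⟩ := Set.mem_iUnion₂.1
          ((biUnion_associatedPrimes_eq_compl_regular R R).ge (H x hx h2))
        exact Set.mem_biUnion (x := P) (by simp [hP]) hxP
  rw [Finset.mem_insert, Set.Finite.mem_toFinset] at hP
  rcases hP with rfl | hP
  · refine h0 (Submodule.eq_bot_of_le_smul_of_le_jacobson_bot (maximalIdeal R) _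
      (IsNoetherian.noetherian _) ?_ (maximalIdeal_le_jacobson _))
    rwa [smul_eq_mul, ← pow_two]
  · obtain ⟨hp, a, rfl⟩ := isAssociatedPrime_iff.1 hP
    refine hp.ne_top ((Ideal.eq_top_iff_one _).2 ?_)
    rw [h a fun r hr => by simpa using hle hr]
    simp

end aux

theorem rs_of_pd (n : ℕ) : ∀ (R : Type u) [CommRing R] [IsLocalRing R] [IsNoetherianRing R],
    PD R (R ⧸ maximalIdeal R) n → ∃ d ≤ n, RS (maximalIdeal R) ⊥ d := by
  induction n with
  | zero => exact fun R _ _ _ h => ⟨0, le_rfl, se_zero h ▸ RS.zero⟩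
  | succ n ih =>
    intro R _ _ _ h
    by_cases h0 : maximalIdeal R = ⊥
    · exact ⟨0, Nat.zero_le _, h0 ▸ RS.zero⟩
    by_cases h1 : ∀ a : R, (∀ r ∈ maximalIdeal R, r * a = 0) → a = 0
    swap
    · push Not at h1
      obtain ⟨a, hm, ha⟩ := h1
      exact (ih R (se_socle h ha hm)).imp fun _ k => ⟨k.1.trans n.le_succ, k.2⟩
    obtain ⟨x, x1, x2, x3⟩ := se_avoid h0 h1
    have hs := Ideal.Quotient.mk_surjective (I := Ideal.span {x})
    have : Nontrivial (R ⧸ Ideal.span {x}) := Ideal.Quotient.nontrivial_iff.2 fun e =>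
      (mem_maximalIdeal _).1 x1 (Ideal.span_singleton_eq_top.1 e)
    have : IsLocalRing (R ⧸ Ideal.span {x}) := IsLocalRing.of_surjective' _ hs
    have h2 := pd_step x3 x1 x2 h
    rw [map_maximalIdeal_of_surjective _ hs] at h2
    obtain ⟨d, hn, hd⟩ := ih _ h2
    have h3 := hd.comap hs
    rw [eq_maximalIdeal (Ideal.comap_isMaximal_of_surjective _ hs), ← RingHom.ker_eq_comap_bot,
      Ideal.mk_ker] at h3
    refine ⟨d + 1, by omega, RS.succ ⊥ d x x1 (fun μ hμ => ?_) (by rwa [bot_sup_eq])⟩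
    exact x3.right_eq_zero_of_smul hμ

lemma dim_step [IsLocalRing R] [IsNoetherianRing R] {J : Ideal R} {x : R} (hJ : J ≠ ⊤)
    (hx : x ∈ maximalIdeal R) (hr : ∀ μ, x * μ ∈ J → μ ∈ J) :
    ringKrullDim (R ⧸ (J ⊔ Ideal.span {x})) + 1 = ringKrullDim (R ⧸ J) := by
  have hs := Ideal.Quotient.mk_surjective (I := J)
  have := Ideal.Quotient.nontrivial_iff.2 hJ
  have : IsLocalRing (R ⧸ J) := .of_surjective' _ hs
  rw [← ringKrullDim_eq_of_ringEquiv (DoubleQuot.quotQuotEquivQuotSup J _), Ideal.map_span,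
    Set.image_singleton]
  refine ringKrullDim_quotient_span_singleton_succ_eq_ringKrullDim
    (.of_right_eq_zero_of_smul fun y hy => ?_)
    (map_maximalIdeal_of_surjective _ hs ▸ Ideal.mem_map_of_mem _ hx)
  obtain ⟨y, rfl⟩ := hs y
  exact Ideal.Quotient.eq_zero_iff_mem.2 (hr y (Ideal.Quotient.eq_zero_iff_mem.1 hy))

theorem RS.dim [IsLocalRing R] [IsNoetherianRing R] {J : Ideal R} {d : ℕ}
    (h : RS (maximalIdeal R) J d) : ringKrullDim (R ⧸ J) = d := by
  induction h with
  | zero => exact ringKrullDim_eq_zero_of_field (ResidueField R)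
  | succ J d x h1 h2 h3 ih =>
    rw [← dim_step (ne_top_of_le_ne_top (maximalIdeal.isMaximal R).ne_top
      (le_sup_left.trans h3.le)) h1 h2, ih]
    rfl

theorem RS.dim_bot [IsLocalRing R] [IsNoetherianRing R] {d : ℕ}
    (h : RS (maximalIdeal R) ⊥ d) : ringKrullDim R = d :=
  (ringKrullDim_eq_of_ringEquiv (RingEquiv.quotientBot R)).symm.trans h.dim

theorem RS.span {m J : Ideal R} {d : ℕ} (h : RS m J d) :
    ∃ s : Finset R, s.card ≤ d ∧ J ⊔ Ideal.span s = m := by
  classical
  induction h with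
  | zero => exact ⟨∅, le_rfl, by simp⟩
  | succ J d x _ _ _ ih =>
    obtain ⟨s, h1, h2⟩ := ih
    exact ⟨insert x s, (Finset.card_insert_le _ _).trans (by omega), by
      rw [Finset.coe_insert, Ideal.span_insert, ← sup_assoc, h2]⟩

theorem RS.reg [IsLocalRing R] [IsNoetherianRing R] {d : ℕ} (h : RS (maximalIdeal R) ⊥ d) :
    IsRegularLocalRing R := by
  obtain ⟨s, h1, h2⟩ := h.span
  refine .of_spanFinrank_maximalIdeal_le _ ?_
  rw [h.dim_bot, ← h2, bot_sup_eq]
  exact_mod_cast (Submodule.spanFinrank_span_le_ncard_of_finite (Finset.finite_toSet _)).trans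
    ((Set.ncard_coe_finset _).trans_le h1)

/-- The theorem of Serre: localizations of regular local rings are regular. -/
theorem serre [IsRegularLocalRing R] (q : Ideal R) [q.IsPrime] [Algebra R L]
    [IsLocalization.AtPrime L q] : IsRegularLocalRing L := by
  obtain ⟨n, hn⟩ := reg_rs (R := R)
  have := IsLocalization.AtPrime.isLocalRing L q
  have := IsLocalization.isNoetherianRing q.primeCompl L inferInstance
  have h := pd_loc (L := L) q.primeCompl (pd_all (hn.pd pd_bot) q)
  rw [IsLocalization.AtPrime.map_eq_maximalIdeal q L] at h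
  obtain ⟨d, -, hd⟩ := rs_of_pd _ _ h
  exact hd.reg

/-- A quotient of depth zero has projective dimension at least the dimension. -/
theorem dim_le [IsRegularLocalRing R] {I : Ideal R} {n : ℕ} (h : PD R (R ⧸ I) n) {u : R}
    (hu : u ∉ I) (hm : ∀ r ∈ maximalIdeal R, r * u ∈ I) : ringKrullDim R ≤ n := by
  obtain ⟨d, hd⟩ := reg_rs (R := R)
  by_contra hn
  rw [hd.dim_bot, Nat.cast_le, not_le] at hn
  obtain ⟨e, rfl⟩ := Nat.exists_eq_add_of_lt hn
  have h1 : ∀ k, PD R (R ⧸ I) (n + k) := fun k => by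
    induction k with
    | zero => exact h
    | succ k ih => exact pd_succ ih
  have h2 := hd.pd pd_bot
  rw [zero_add] at h2
  obtain ⟨d, h3, h4⟩ := rs_of_pd _ R ((pd_ses I (maximalIdeal R) u (fun μ =>
    ⟨fun k => mul_comm μ u ▸ hm μ k, fun k => by_contra fun k' =>
      hu ((I.mul_unit_mem_iff_mem (notMem_maximalIdeal.1 k')).1 k)⟩) _).2.2 (h1 e) (pd_all h2 _))
  have := h4.dim_bot.symm.trans hd.dim_bot
  rw [Nat.cast_inj] at this
  omega

open RingTheory.Sequence in
/-- If a regular sequence followed by one more element has depth zero quotient, the quotient by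
the sequence has dimension one. -/
theorem dim_one [IsRegularLocalRing R] {fs : List R} (hfs : IsRegular R fs) {a u : R}
    (ha : a ∈ maximalIdeal R) (hr : ∀ μ, a * μ ∈ Ideal.ofList fs → μ ∈ Ideal.ofList fs)
    (hu : u ∉ Ideal.ofList fs ⊔ Ideal.span {a})
    (hm : ∀ r ∈ maximalIdeal R, r * u ∈ Ideal.ofList fs ⊔ Ideal.span {a}) :
    ringKrullDim (R ⧸ Ideal.ofList fs) = 1 := by
  have hI : Ideal.ofList fs ≠ ⊤ := fun e => hfs.top_ne_smul (by rw [e, Submodule.top_smul])
  have h0 : PD R (R ⧸ Ideal.ofList fs) fs.length := by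
    have := ModuleCat.projectiveDimension_quotient_eq_length.{u} fs hfs
    exact pd_equiv (Shrink.linearEquiv R _) ((projectiveDimension_le_iff _ _).1 this.le)
  have h1 := dim_le ((pd_ses _ _ a (fun μ => ⟨fun h => Ideal.mul_mem_left _ a h, hr μ⟩) _).2.1 h0
    (pd_succ h0)) hu hm
  have h2 := dim_step hI ha hr
  have := Ideal.Quotient.nontrivial_iff.2 (show Ideal.ofList fs ⊔ Ideal.span {a} ≠ ⊤ from
    fun e => hu (e ▸ trivial))
  rw [← ringKrullDim_add_length_eq_ringKrullDim_of_isRegular fs hfs, ← h2] at h1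
  rw [← h2]
  have h3 := ringKrullDim_nonneg_of_nontrivial (R := R ⧸ (Ideal.ofList fs ⊔ Ideal.span {a}))
  generalize ringKrullDim (R ⧸ (Ideal.ofList fs ⊔ Ideal.span {a})) = D at h1 h3
  induction D with
  | bot => simp at h3
  | coe D =>
    induction D with
    | top => exact absurd h1 (by norm_cast)
    | coe D => norm_cast at h1 ⊢; omega

end Pool.Agent.Lib.MP_9e3d42_al.AD
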