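import Pool.Agent.Lib.MP_9e3d42_al.AD.Aus
import Pool.Agent.Lib.MP_9e3d42_al.AD.Serre
import Pool.Agent.Lib.MP_9e3d42_al.CS.Main

/-! Localization of complete intersections at the primes of depth one. -/

open Module TensorProduct IsLocalRing RingTheory.Sequence

universe u v

namespace Pool.Agent.Lib.MP_9e3d42_al.AD

lemma nzd_of_flat {R B : Type*} [CommRing R] [IsDomain R] [CommRing B] {χ : R →+* B}
    (h : χ.Flat) {r : R} (hr : r ≠ 0) : χ r ∈ nonZeroDivisors B := by
  let _ := χ.toAlgebra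
  have : Module.Flat R B := h
  exact mem_nonZeroDivisors_iff_left.2 fun y e =>
    (smul_eq_zero_iff_right hr).1 ((Algebra.smul_def r y).trans e)

lemma comap_map_of_ff {R B : Type*} [CommRing R] [CommRing B] {χ : R →+* B}
    (h : χ.FaithfullyFlat) (I : Ideal R) : (I.map χ).comap χ = I := by
  let _ := χ.toAlgebra
  have : Module.FaithfullyFlat R B := h
  exact Ideal.comap_map_eq_self_of_faithfullyFlat I

variable {S T : Type u} [CommRing S] [CommRing T] [Algebra S T]

lemma flat_quot (N : Submonoid S) [IsLocalization N T] (I : Ideal S) {I' : Ideal T}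
    (h : I.map (algebraMap S T) = I') : ∃ ψ : S ⧸ I →+* T ⧸ I', ψ.Flat ∧
      ∀ s, ψ (Ideal.Quotient.mk I s) = Ideal.Quotient.mk I' (algebraMap S T s) := by
  subst h
  exact ⟨algebraMap _ _, RingHom.flat_algebraMap_iff.2
    (IsLocalization.flat _ (Algebra.algebraMapSubmonoid (S ⧸ I) N)), fun _ => rfl⟩

theorem serre' [IsRegularLocalRing S] (N : Submonoid S) [IsLocalization N T] [IsLocalRing T] :
    IsRegularLocalRing T :=
  have : IsLocalization.AtPrime T ((maximalIdeal T).comap (algebraMap S T)) :=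
    IsLocalization.of_le N _ (fun r hr => notMem_maximalIdeal.2 (IsLocalization.map_units T ⟨r, hr⟩))
      fun _ hr => notMem_maximalIdeal.1 hr
  serre ((maximalIdeal T).comap (algebraMap S T))

/-- A member of a regular system of parameters stays one in the localizations. -/
theorem unram [IsRegularLocalRing S] (Q : Ideal S) [Q.IsPrime] [IsLocalization.AtPrime T Q]
    [IsLocalRing T] {x : S} (hx : x ∈ Q) (hx2 : x ∉ maximalIdeal S ^ 2) :
    algebraMap S T x ∉ maximalIdeal T ^ 2 := fun h => by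
  have := reg_domain (R := S)
  have := IsLocalization.isNoetherianRing Q.primeCompl T inferInstance
  have := reg_quot (le_maximalIdeal Ideal.IsPrime.ne_top' hx) hx2
  have h1 := (IsLocalization.AtPrime.to_map_mem_maximal_iff T Q x).2 hx
  have e : (Ideal.span {x}).map (algebraMap S T) = Ideal.span {algebraMap S T x} := by
    rw [Ideal.map_span, Set.image_singleton]
  have : IsLocalRing (T ⧸ (Ideal.span {x}).map (algebraMap S T)) := e ▸ rg_local h1
  have : IsRegularLocalRing (T ⧸ (Ideal.span {x}).map (algebraMap S T)) :=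
    serre' (Algebra.algebraMapSubmonoid (S ⧸ Ideal.span {x}) Q.primeCompl)
  obtain ⟨d, hd⟩ := reg_rs (R := T ⧸ (Ideal.span {x}).map (algebraMap S T))
  have h2 := hd.comap Ideal.Quotient.mk_surjective
  have := IsLocalHom.of_surjective _
    (Ideal.Quotient.mk_surjective (I := (Ideal.span {x}).map (algebraMap S T)))
  rw [maximalIdeal_comap, ← RingHom.ker_eq_comap_bot, Ideal.mk_ker, e] at h2
  have h3 := (RS.succ ⊥ d _ h1 (fun μ hμ => mem_nonZeroDivisors_iff_left.1 (nzd_of_flat
    (RingHom.flat_algebraMap_iff.2 (IsLocalization.flat T Q.primeCompl))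
    fun e : x = 0 => hx2 (e ▸ zero_mem _)) μ hμ) (by rwa [bot_sup_eq])).dim_bot
  obtain ⟨s, h4, h5⟩ := h2.span
  have h6 : maximalIdeal T = Ideal.span s := le_antisymm
    (Submodule.le_of_le_smul_of_le_jacobson_bot (maximalIdeal T).fg_of_isNoetherianRing
      (maximalIdeal_le_jacobson _) (h5.ge.trans (sup_le (le_sup_of_le_right
        ((Ideal.span_singleton_le_iff_mem _).2 (by rwa [smul_eq_mul, ← pow_two]))) le_sup_left)))
    (le_sup_right.trans h5.le)
  have h7 := ringKrullDim_le_spanFinrank_maximalIdeal T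
  rw [h3, h6, Nat.cast_le] at h7
  have := h7.trans ((Submodule.spanFinrank_span_le_ncard_of_finite (Finset.finite_toSet _)).trans
    ((Set.ncard_coe_finset _).trans_le h4))
  omega

/-- From a socle element modulo a nonzerodivisor to a one-dimensional localization. -/
theorem exists_loc [IsRegularLocalRing S] {fs : List S} (hfs : IsRegular S fs)
    {a u : S ⧸ Ideal.ofList fs} (ha : a ∈ nonZeroDivisors _) (hu : ¬ a ∣ u) :
    ∃ (Q : Ideal S) (_ : Q.IsPrime), Ideal.ofList fs ≤ Q ∧
      (∀ y, a ∣ Ideal.Quotient.mk _ y * u → y ∈ Q) ∧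
      ringKrullDim (Localization.AtPrime Q ⧸
        Ideal.ofList (fs.map (algebraMap S (Localization.AtPrime Q)))) = 1 := by
  obtain ⟨a, rfl⟩ := Ideal.Quotient.mk_surjective a
  obtain ⟨u, rfl⟩ := Ideal.Quotient.mk_surjective u
  have hK : ∀ z, z ∈ Ideal.ofList fs ⊔ Ideal.span {a} ↔
      Ideal.Quotient.mk (Ideal.ofList fs) a ∣ Ideal.Quotient.mk _ z := fun z => by
    rw [← Ideal.mem_span_singleton, ← Set.image_singleton, ← Ideal.map_span,
      Ideal.mem_quotient_iff_mem_sup, sup_comm]
  obtain ⟨Q, hQ, hle⟩ := exists_le_isAssociatedPrime_of_isNoetherianRing S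
    (Ideal.Quotient.mk (Ideal.ofList fs ⊔ Ideal.span {a}) u)
    fun e => hu ((hK u).1 (Ideal.Quotient.eq_zero_iff_mem.1 e))
  obtain ⟨hp, v, hv⟩ := isAssociatedPrime_iff.1 hQ
  obtain ⟨v, rfl⟩ := Ideal.Quotient.mk_surjective v
  have hc : ∀ v z : S, z ∈ (⊥ : Submodule S (S ⧸ (Ideal.ofList fs ⊔ Ideal.span {a}))).colon
      {Ideal.Quotient.mk _ v} ↔ z * v ∈ Ideal.ofList fs ⊔ Ideal.span {a} := fun v z =>
    Submodule.mem_colon_singleton.trans (Ideal.Quotient.eq_zero_iff_mem (a := z * v))
  have hQv : ∀ z, z ∈ Q ↔ z * v ∈ Ideal.ofList fs ⊔ Ideal.span {a} := fun z => hv ▸ hc v z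
  have hKQ : Ideal.ofList fs ⊔ Ideal.span {a} ≤ Q := fun z hz =>
    (hQv z).2 (Ideal.mul_mem_right _ _ hz)
  refine ⟨Q, hp, le_sup_left.trans hKQ, fun y hy => hle ((hc u y).2 ((hK _).2 hy)), ?_⟩
  let T := Localization.AtPrime Q
  have : IsRegularLocalRing T := serre Q
  have e : Ideal.ofList (fs.map (algebraMap S T)) ⊔ Ideal.span {algebraMap S T a} =
      (Ideal.ofList fs ⊔ Ideal.span {a}).map (algebraMap S T) := by
    rw [Ideal.map_sup, Ideal.map_ofList, Ideal.map_span, Set.image_singleton]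
  obtain ⟨ψ, h1, h2⟩ := flat_quot Q.primeCompl _ (Ideal.map_ofList (algebraMap S T) fs)
  refine dim_one (a := algebraMap S T a) (u := algebraMap S T v)
    (hfs.1.isRegular_of_isLocalization_of_mem T Q fun r hr =>
      hKQ (Ideal.mem_sup_left (Ideal.subset_span hr)))
    ((IsLocalization.AtPrime.to_map_mem_maximal_iff T Q a).2
      (hKQ (Ideal.mem_sup_right (Ideal.mem_span_singleton_self a)))) (fun μ hμ => ?_) ?_
    fun r hr => ?_
  · let _ := ψ.toAlgebra
    have : Module.Flat _ _ := h1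
    refine Ideal.Quotient.eq_zero_iff_mem.1 ((Module.Flat.isSMulRegular_of_nonZeroDivisors
      ha).right_eq_zero_of_smul ((Algebra.smul_def _ _).trans ?_))
    exact (congrArg (· * _) (h2 a)).trans (Ideal.Quotient.eq_zero_iff_mem.2 hμ)
  · rw [e, IsLocalization.algebraMap_mem_map_algebraMap_iff Q.primeCompl]
    exact fun ⟨s, h3, h4⟩ => h3 ((hQv s).2 h4)
  · rw [← Localization.AtPrime.map_eq_maximalIdeal] at hr
    have := Ideal.mul_mem_mul hr
      (Ideal.mem_map_of_mem (algebraMap S T) (Ideal.mem_span_singleton_self v))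
    rw [← Ideal.map_mul] at this
    refine e ▸ Ideal.map_mono (Ideal.mul_le.2 fun z hz w hw => ?_) this
    obtain ⟨c, rfl⟩ := Ideal.mem_span_singleton.1 hw
    exact mul_assoc z v c ▸ Ideal.mul_mem_right _ _ ((hQv z).1 hz)

/-- The Huneke-Wiegand condition in all dimensions, codimension at most two. -/
theorem free_of_ci {R : Type*} [CommRing R] [IsDomain R] [IsLocalRing R] [IsNoetherianRing R]
    [IsRegularLocalRing S] {fs : List S} (hfs : IsRegular S fs) (hl : fs.length ≤ 2)
    (φ : R →+* S ⧸ Ideal.ofList fs) (hφ : φ.FaithfullyFlat)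
    (hc : (ringChar (ResidueField S) : S ⧸ Ideal.ofList fs) = 0 ∨
      (ringChar (ResidueField S) : S) ∉ maximalIdeal S ^ 2)
    (M : Type v) [AddCommGroup M] [Module R M] [Module.Finite R M] [IsTorsionFree R M]
    [IsReflexive R (M ⊗[R] Dual R M)] : Module.Free R M := by
  refine free_of_cover.{u} fun a ha u hu => ?_
  obtain ⟨Q, _, h1, h2, h3⟩ := exists_loc hfs (nzd_of_flat hφ.flat ha) (u := φ u) fun h => hu (by
    rwa [← Ideal.mem_span_singleton, ← Set.image_singleton, ← Ideal.map_span, ← Ideal.mem_comap,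
      comap_map_of_ff hφ, Ideal.mem_span_singleton] at h)
  let T := Localization.AtPrime Q
  have : IsRegularLocalRing T := serre Q
  have hr := hfs.1.isRegular_of_isLocalization_of_mem T Q fun r hr => h1 (Ideal.subset_span hr)
  obtain ⟨ψ, h4, h5⟩ := flat_quot Q.primeCompl _ (Ideal.map_ofList (algebraMap S T) fs)
  have hs := Ideal.Quotient.mk_surjective (I := Ideal.ofList (fs.map (algebraMap S T)))
  have := Ideal.Quotient.nontrivial_iff.2 (show Ideal.ofList (fs.map (algebraMap S T)) ≠ ⊤ from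
    fun e => hr.top_ne_smul (by rw [e, Submodule.top_smul]))
  have := IsLocalRing.of_surjective' _ hs
  obtain ⟨O, _, _, _, _, w, F, G, hw, h6, ⟨e⟩⟩ := CS.cohen_ci T _ hr (by simpa using hl) h3 (by
    obtain hq | hq := CharP.char_is_prime_or_zero (ResidueField T) (ringChar _)
    swap
    · exact .inl (by rw [hq, Nat.cast_zero])
    have k1 : (ringChar (ResidueField T) : S) ∈ Q :=
      (IsLocalization.AtPrime.to_map_mem_maximal_iff T Q _).1 ((residue_eq_zero_iff _).1 (by
        rw [map_natCast, map_natCast, ringChar.Nat.cast_ringChar]))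
    rw [CharP.ringChar_of_prime_eq_zero hq ((map_natCast (residue S) _).symm.trans
      ((residue_eq_zero_iff _).2 (le_maximalIdeal Ideal.IsPrime.ne_top' k1)))] at hc
    obtain hc | hc := hc
    · exact .inl (by rw [← map_natCast ψ, hc, map_zero])
    by_cases k2 : (ringChar (ResidueField T) : R) = 0
    · exact .inl (by rw [← map_natCast (ψ.comp φ), k2, map_zero])
    · exact .inr ⟨map_natCast (algebraMap S T) _ ▸ unram Q k1 hc,
        map_natCast (ψ.comp φ) _ ▸ nzd_of_flat (hφ.flat.comp h4) k2⟩)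
  obtain ⟨ω, h7⟩ : ∃ ω : _ →+* _, ω.FaithfullyFlat := ⟨_, TW.ff_of_compl e⟩
  let _ := (ω.comp (ψ.comp φ)).toAlgebra
  have : Module.Flat R _ := (hφ.flat.comp h4).comp h7.flat
  have : IsPrecomplete (Ideal.span {w}) O := hw.maximalIdeal_eq ▸ inferInstance
  refine ⟨_, _, _, ‹_›, good_proj hw M (TW.good_ps hw h6), (maximalIdeal _).map ω,
    fun k => (maximalIdeal.isMaximal _).ne_top ((comap_map_of_ff h7 _).symm.trans
      (k ▸ Ideal.comap_top)), fun y hy => Ideal.mem_map_of_mem ω ?_⟩
  obtain ⟨z, hz⟩ := Ideal.Quotient.mk_surjective (φ y)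
  rw [RingHom.comp_apply, ← hz, h5, ← map_maximalIdeal_of_surjective _ hs]
  exact Ideal.mem_map_of_mem _ ((IsLocalization.AtPrime.to_map_mem_maximal_iff T Q z).2
    (h2 z (by rw [hz, ← map_mul]; exact map_dvd φ hy)))

end Pool.Agent.Lib.MP_9e3d42_al.AD
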