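import Pool.Agent.Lib.MP_9e3d42_al.AD.Loc

/-! The localization step in exported form. -/

open Module TensorProduct IsLocalRing RingTheory.Sequence

universe u v

namespace Pool.Agent.Lib.MP_9e3d42_al.AD

variable {S : Type u} [CommRing S]

lemma weakly_snoc {l : List S} {a : S} : IsWeaklyRegular S (l ++ [a]) ↔ IsWeaklyRegular S l ∧
    ∀ μ, a * μ ∈ Ideal.ofList l → μ ∈ Ideal.ofList l := by
  rw [isWeaklyRegular_append_iff, isWeaklyRegular_singleton_iff, isSMulRegular_on_quot_iff_lsmul_comap_le,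
    smul_eq_mul, Ideal.mul_top]
  rfl

/-- `dim_one` for a list with one more element. -/
theorem dim_one' [IsRegularLocalRing S] {fs : List S} {a u : S} (h : IsRegular S (fs ++ [a]))
    (hu : u ∉ Ideal.ofList (fs ++ [a]))
    (hm : ∀ r ∈ maximalIdeal S, r * u ∈ Ideal.ofList (fs ++ [a])) :
    IsRegular S fs ∧ ringKrullDim (S ⧸ Ideal.ofList fs) = 1 := by
  have h0 : Ideal.ofList (fs ++ [a]) ≤ maximalIdeal S := le_maximalIdeal fun e => hu (e ▸ trivial)
  obtain ⟨h1, h2⟩ := weakly_snoc.1 h.1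
  have h3 := (isRegular_iff_isWeaklyRegular_of_subset_maximalIdeal fun r hr =>
    h0 (Ideal.subset_span (List.mem_append_left _ hr))).2 h1
  rw [Ideal.ofList_append, Ideal.ofList_singleton] at hu hm h0
  exact ⟨h3, dim_one h3 (h0 (Ideal.mem_sup_right (Ideal.mem_span_singleton_self a))) h2 hu hm⟩

theorem loc_step [IsRegularLocalRing S] {fs : List S} (hfs : IsRegular S fs)
    {c w : S ⧸ Ideal.ofList fs} (hc0 : c ∈ nonZeroDivisors _) (P : Ideal (S ⧸ Ideal.ofList fs))
    [P.IsPrime] (hP : ∀ r, r ∈ P ↔ c ∣ r * w)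
    (hc : (ringChar (ResidueField S) : S ⧸ Ideal.ofList fs) = 0 ∨
      ((ringChar (ResidueField S) : S) ∉ maximalIdeal S ^ 2 ∧
        (ringChar (ResidueField S) : S ⧸ Ideal.ofList fs) ∈ nonZeroDivisors _))
    (T : Type u) [CommRing T] [Algebra S T]
    [IsLocalization.AtPrime T (P.comap (Ideal.Quotient.mk _))] :
    ∃ (_ : IsRegularLocalRing T) (c' w' : T)
      (ψ : S ⧸ Ideal.ofList fs →+* T ⧸ Ideal.ofList (fs.map (algebraMap S T))),
      IsRegular T (fs.map (algebraMap S T) ++ [c']) ∧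
      w' ∉ Ideal.ofList (fs.map (algebraMap S T) ++ [c']) ∧
      (∀ r ∈ maximalIdeal T, r * w' ∈ Ideal.ofList (fs.map (algebraMap S T) ++ [c'])) ∧
      ψ.Flat ∧ (∀ s, ψ (Ideal.Quotient.mk _ s) = Ideal.Quotient.mk _ (algebraMap S T s)) ∧
      ψ c = Ideal.Quotient.mk _ c' ∧ ψ w = Ideal.Quotient.mk _ w' ∧
      ((ringChar (ResidueField T) : T ⧸ Ideal.ofList (fs.map (algebraMap S T))) = 0 ∨
        ((ringChar (ResidueField T) : T) ∉ maximalIdeal T ^ 2 ∧
          (ringChar (ResidueField T) : T ⧸ Ideal.ofList (fs.map (algebraMap S T))) ∈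
            nonZeroDivisors _)) := by
  obtain ⟨a, rfl⟩ := Ideal.Quotient.mk_surjective c
  obtain ⟨v, rfl⟩ := Ideal.Quotient.mk_surjective w
  set Q := P.comap (Ideal.Quotient.mk (Ideal.ofList fs))
  have hQv : ∀ z, z ∈ Q ↔ z * v ∈ Ideal.ofList (fs ++ [a]) := fun z => by
    rw [Ideal.mem_comap, hP, ← map_mul, ← Ideal.mem_span_singleton, ← Set.image_singleton,
      ← Ideal.map_span, Ideal.mem_quotient_iff_mem_sup, sup_comm, Ideal.ofList_append,
      Ideal.ofList_singleton]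
  have : IsRegularLocalRing T := serre Q
  have e : fs.map (algebraMap S T) ++ [algebraMap S T a] = (fs ++ [a]).map (algebraMap S T) := by
    simp
  obtain ⟨ψ, h1, h2⟩ := flat_quot Q.primeCompl _ (Ideal.map_ofList (algebraMap S T) fs)
  refine ⟨this, algebraMap S T a, algebraMap S T v, ψ, ?_, ?_, fun r hr => ?_, h1, h2, h2 a, h2 v,
    ?_⟩
  · refine e ▸ (weakly_snoc.2 ⟨hfs.1, fun μ hμ => ?_⟩).isRegular_of_isLocalization_of_mem T Q
      fun r hr => (hQv r).2 (Ideal.mul_mem_right _ _ (Ideal.subset_span hr))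
    exact Ideal.Quotient.eq_zero_iff_mem.1 (mem_nonZeroDivisors_iff_left.1 hc0 _
      (Ideal.Quotient.eq_zero_iff_mem.2 hμ))
  · rw [e, ← Ideal.map_ofList, IsLocalization.algebraMap_mem_map_algebraMap_iff Q.primeCompl]
    exact fun ⟨s, h3, h4⟩ => h3 ((hQv s).2 h4)
  · rw [← IsLocalization.AtPrime.map_eq_maximalIdeal Q T] at hr
    have := Ideal.mul_mem_mul hr
      (Ideal.mem_map_of_mem (algebraMap S T) (Ideal.mem_span_singleton_self v))
    rw [← Ideal.map_mul] at this
    rw [e, ← Ideal.map_ofList]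
    refine Ideal.map_mono (Ideal.mul_le.2 fun z hz w hw => ?_) this
    obtain ⟨c, rfl⟩ := Ideal.mem_span_singleton.1 hw
    exact mul_assoc z v c ▸ Ideal.mul_mem_right _ _ ((hQv z).1 hz)
  obtain hq | hq := CharP.char_is_prime_or_zero (ResidueField T) (ringChar _)
  swap
  · exact .inl (by rw [hq, Nat.cast_zero])
  have k1 : (ringChar (ResidueField T) : S) ∈ Q :=
    (IsLocalization.AtPrime.to_map_mem_maximal_iff T Q _).1 ((residue_eq_zero_iff _).1 (by
      rw [map_natCast, map_natCast, ringChar.Nat.cast_ringChar]))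
  rw [CharP.ringChar_of_prime_eq_zero hq ((map_natCast (residue S) _).symm.trans
    ((residue_eq_zero_iff _).2 (le_maximalIdeal Ideal.IsPrime.ne_top' k1)))] at hc
  obtain hc | ⟨hc, k2⟩ := hc
  · exact .inl (by rw [← map_natCast ψ, hc, map_zero])
  let _ := ψ.toAlgebra
  have : Module.Flat _ _ := h1
  exact .inr ⟨map_natCast (algebraMap S T) _ ▸ unram Q k1 hc, map_natCast ψ _ ▸
    mem_nonZeroDivisors_iff_left.2 fun y hy => (Module.Flat.isSMulRegular_of_nonZeroDivisors
      k2).right_eq_zero_of_smul ((Algebra.smul_def _ _).trans hy)⟩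

end Pool.Agent.Lib.MP_9e3d42_al.AD
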