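import Mathlib

/-! Local factors of monogenic extensions of complete local rings. -/

open IsLocalRing Polynomial

universe u

namespace Pool.Agent.Lib.MP_9e3d42_al.AD

lemma prec_fin {O C : Type*} [CommRing O] (I : Ideal O) [IsPrecomplete I O] [AddCommGroup C]
    [Module O C] [Module.Finite O C] : IsPrecomplete I C := by
  refine AdicCompletion.of_surjective_iff.1 fun y => ?_
  obtain ⟨t, rfl⟩ := AdicCompletion.ofTensorProduct_surjective_of_finite I C y
  induction t with
  | zero => exact ⟨0, by simp⟩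
  | tmul r c =>
    obtain ⟨r, rfl⟩ := AdicCompletion.of_surjective I O r
    refine ⟨r • c, ?_⟩
    rw [AdicCompletion.ofTensorProduct_tmul, map_smul]
    exact (algebraMap_smul (AdicCompletion I O) r _).symm
  | add a b ha hb =>
    obtain ⟨a', ha⟩ := ha
    obtain ⟨b', hb⟩ := hb
    exact ⟨a' + b', by rw [map_add, map_add, ha, hb]⟩

lemma prec_of_pow {C : Type*} [CommRing C] {I J : Ideal C} [IsPrecomplete I C] (h1 : I ≤ J)
    {N : ℕ} (h2 : J ^ (N + 1) ≤ I) : IsPrecomplete J C := by
  refine isPrecomplete_iff.2 fun f hf => ?_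
  obtain ⟨L, hL⟩ := IsPrecomplete.prec ‹IsPrecomplete I C› (f := fun k => f ((N + 1) * k))
    fun {m n} h => (hf (Nat.mul_le_mul_left _ h)).mono (Submodule.smul_mono_left (by
      rw [pow_mul]; exact Ideal.pow_right_mono h2 m))
  exact ⟨L, fun n => (hf (Nat.le_mul_of_pos_left n N.succ_pos)).trans
    ((hL n).mono (Submodule.smul_mono_left (Ideal.pow_right_mono h1 n)))⟩

lemma compl_fin {O C : Type*} [CommRing O] [IsLocalRing O] [IsNoetherianRing O]
    [IsAdicComplete (maximalIdeal O) O] [CommRing C] [IsLocalRing C] [Algebra O C]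
    [Module.Finite O C] : IsAdicComplete (maximalIdeal C) C := by
  have : IsNoetherianRing C := .of_finite O C
  have := prec_fin (C := C) (maximalIdeal O)
  have : IsPrecomplete ((maximalIdeal O).map (algebraMap O C)) C :=
    IsPrecomplete.map_algebraMap_iff.2 this
  have h0 : ∀ P : Ideal C, P.IsMaximal → (maximalIdeal O).map (algebraMap O C) ≤ P := fun P hP =>
    Ideal.map_le_iff_le_comap.2 (eq_maximalIdeal
      (Ideal.isMaximal_comap_of_isIntegral_of_isMaximal (R := O) P)).ge
  obtain ⟨N, hN⟩ := Ideal.exists_pow_le_of_le_radical_of_fg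
    (I := maximalIdeal C) (J := (maximalIdeal O).map (algebraMap O C)) (by
      rw [Ideal.radical_eq_sInf]
      refine le_sInf fun P hP => ?_
      have := hP.2
      refine (eq_maximalIdeal (Ideal.isMaximal_of_isIntegral_of_isMaximal_comap (R := O) P ?_)).ge
      rw [← (maximalIdeal.isMaximal O).eq_of_le (Ideal.comap_isPrime _ P).ne_top
        (Ideal.map_le_iff_le_comap.1 hP.1)]
      exact maximalIdeal.isMaximal O) (maximalIdeal C).fg_of_isNoetherianRing
  have := prec_of_pow (h0 _ (maximalIdeal.isMaximal C)) (N := N)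
    ((Ideal.pow_le_pow_right N.le_succ).trans hN)
  exact {}

/-- A finite algebra over a local ring with a point whose kernel lies in the radical of the
extended maximal ideal is local. -/
lemma local_of_pt {C C' K : Type*} [CommRing C] [IsLocalRing C] [CommRing C'] [Algebra C C']
    [Module.Finite C C'] [Field K] (ρ : C' →+* K)
    (h1 : ∀ z ∈ maximalIdeal C, ρ (algebraMap C C' z) = 0)
    (h2 : RingHom.ker ρ ≤ ((maximalIdeal C).map (algebraMap C C')).radical) :
    ∃ _ : IsLocalRing C', RingHom.ker ρ = maximalIdeal C' := by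
  have hp := RingHom.ker_isPrime ρ
  have hm : (RingHom.ker ρ).IsMaximal := by
    refine Ideal.isMaximal_of_isIntegral_of_isMaximal_comap (R := C) _ ?_
    rw [← (maximalIdeal.isMaximal C).eq_of_le
      (Ideal.comap_isPrime (algebraMap C C') (RingHom.ker ρ)).ne_top h1]
    exact maximalIdeal.isMaximal C
  have : IsLocalRing C' := .of_unique_max_ideal ⟨_, hm, fun P hP => (hm.eq_of_le hP.ne_top
    (h2.trans (hP.isPrime.radical_le_iff.2 (Ideal.map_le_iff_le_comap.2 (eq_maximalIdeal
      (Ideal.isMaximal_comap_of_isIntegral_of_isMaximal (R := C) P)).ge)))).symm⟩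
  exact ⟨this, eq_maximalIdeal hm⟩

lemma hensel {C : Type*} [CommRing C] [IsLocalRing C] [IsAdicComplete (maximalIdeal C) C]
    {g : C[X]} (hg : g.Monic) :
    ∃ f q : C[X], f.IsDistinguishedAt (maximalIdeal C) ∧ IsUnit (q.coeff 0) ∧ g = f * q := by
  obtain ⟨f, u, h1, h2, h3⟩ := PowerSeries.exists_isWeierstrassFactorization
    (g := (g : PowerSeries C)) (fun e => by
      have := congrArg (PowerSeries.coeff g.natDegree) e
      simp [hg.coeff_natDegree] at this)
  have hI := (maximalIdeal.isMaximal C).ne_top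
  have e : f.natDegree = _ := congr(ENat.toNat $(h1.coe_natDegree_eq_order_map f 1
    (by rwa [PowerSeries.constantCoeff_one, ← Ideal.ne_top_iff_one]) (by simp)))
  have hd := degree_eq_natDegree h1.monic.ne_zero
  obtain ⟨rfl, h5⟩ := (h1.isWeierstrassDivisorAt hI).eq_of_mul_add_eq_mul_add
    (q := (g /ₘ f : C[X])) (q' := u) (r := g %ₘ f) (r' := 0)
    (by rw [← e, ← hd]; exact degree_modByMonic_lt g h1.monic)
    (by rw [degree_zero]; exact WithBot.bot_lt_coe _)
    (by rw [← coe_mul, ← coe_add, add_comm, modByMonic_add_div, h3, coe_zero, add_zero])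
  refine ⟨f, g /ₘ f, h1, ?_, ?_⟩
  · simpa using PowerSeries.isUnit_constantCoeff _ h2
  · rw [← zero_add (f * _), ← h5, modByMonic_add_div]

theorem local_factor {C E : Type u} {K : Type*} [CommRing C] [IsLocalRing C]
    [IsAdicComplete (maximalIdeal C) C] [CommRing E] [Algebra C E] (pb : PowerBasis C E)
    [Field K] (π : E →+* K) (hπ : RingHom.ker (π.comp (algebraMap C E)) = maximalIdeal C)
    {a : C} (ha : π (algebraMap C E a) = π pb.gen) :
    ∃ (C' : Type u) (_ : CommRing C') (_ : IsLocalRing C') (_ : Algebra C C')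
      (pb' : PowerBasis C C') (θ : E →ₐ[C] C') (ρ : C' →+* K), pb'.gen ∈ maximalIdeal C' ∧
      θ.toRingHom.Flat ∧ ρ.comp θ.toRingHom = π ∧ RingHom.ker ρ = maximalIdeal C' := by
  let w := pb.gen - algebraMap C E a
  let ρ0 := π.comp (algebraMap C E)
  have hw : π w = 0 := by simp [w, ha]
  have hc : ∀ p : C[X], aeval w (p.comp (X + Polynomial.C a)) = aeval pb.gen p := fun p => by
    simp [aeval_comp, w]
  have hπ' : ∀ p : C[X], π (aeval w p) = ρ0 (p.coeff 0) := fun p => by
    rw [aeval_def, hom_eval₂, hw, eval₂_at_zero]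
  obtain ⟨f, q, h1, h2, h3⟩ := hensel
    ((minpoly.monic pb.isIntegral_gen).comp_X_add_C a)
  have h4 : aeval w f * aeval w q = 0 := by rw [← map_mul, ← h3, hc, minpoly.aeval]
  have h5 : f.eval₂ ρ0 0 = 0 := by
    have := congrArg π h4
    rw [map_mul, hπ', hπ', map_zero] at this
    rw [eval₂_at_zero]
    exact (mul_eq_zero.1 this).resolve_right (h2.map ρ0).ne_zero
  let ρ := AdjoinRoot.lift ρ0 0 h5
  have := (AdjoinRoot.powerBasis' h1.monic).finite
  have hn : AdjoinRoot.root f ∈ ((maximalIdeal C).map (algebraMap C (AdjoinRoot f))).radical :=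
    ⟨_, h1.toIsWeaklyEisensteinAt.pow_natDegree_le_of_aeval_zero_of_monic_mem_map
      (AdjoinRoot.aeval_eq f |>.trans AdjoinRoot.mk_self) h1.monic _ le_rfl⟩
  obtain ⟨_, hk⟩ := local_of_pt (C := C) ρ (fun z hz => by
      rw [AdjoinRoot.algebraMap_eq, AdjoinRoot.lift_of]; exact hπ.ge hz) fun z hz => by
    obtain ⟨p, rfl⟩ := AdjoinRoot.mk_surjective z
    rw [RingHom.mem_ker, AdjoinRoot.lift_mk, eval₂_at_zero] at hz
    rw [← p.X_mul_divX_add, map_add, map_mul, AdjoinRoot.mk_X]
    exact add_mem (Ideal.mul_mem_right _ _ hn)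
      (Ideal.le_radical (Ideal.mem_map_of_mem _ (hπ.le hz)))
  let θ := pb.lift (AdjoinRoot.root f + algebraMap C _ a) (by
    have := AdjoinRoot.aeval_eq (f := f) (f * q)
    rw [← h3, aeval_comp] at this
    simpa [h3] using this)
  have hθ : ∀ p : C[X], θ (aeval w p) = AdjoinRoot.mk f p := fun p => by
    rw [← aeval_algHom_apply, ← AdjoinRoot.aeval_eq]
    simp [θ, w]
  have hs : ∀ z : E, ∃ p : C[X], aeval w p = z := fun z =>
    let ⟨p, e⟩ := pb.exists_eq_aeval' z; ⟨_, (hc p).trans e.symm⟩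
  refine ⟨AdjoinRoot f, _, ‹_›, _, AdjoinRoot.powerBasis' h1.monic, θ, ρ,
    hk.le (AdjoinRoot.lift_root h5), ?_, RingHom.ext fun z => ?_, hk⟩
  · let _ := θ.toRingHom.toAlgebra
    have hu : IsUnit (θ (aeval w q)) := by
      by_contra hu
      have := hk.ge ((mem_maximalIdeal _).2 hu)
      rw [RingHom.mem_ker, hθ, AdjoinRoot.lift_mk, eval₂_at_zero] at this
      exact (h2.map ρ0).ne_zero this
    have : IsLocalization.Away (aeval w q) (AdjoinRoot f) := IsLocalization.Away.mk _ hu
      (fun z => by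
        obtain ⟨p, rfl⟩ := AdjoinRoot.mk_surjective z
        exact ⟨0, aeval w p, by rw [pow_zero, mul_one]; exact (hθ p).symm⟩) fun y z e => by
      obtain ⟨p, hp⟩ := hs (y - z)
      obtain ⟨r, rfl⟩ := AdjoinRoot.mk_eq_zero.1 ((hθ p).symm.trans (by
        rw [hp, map_sub]; exact sub_eq_zero.2 e))
      refine ⟨1, sub_eq_zero.1 ?_⟩
      rw [← mul_sub, ← hp, pow_one, map_mul, ← mul_assoc, mul_comm (aeval w q), h4, zero_mul]
    exact IsLocalization.flat (AdjoinRoot f) (Submonoid.powers (aeval w q))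
  · obtain ⟨p, rfl⟩ := hs z
    rw [hπ']
    exact (congrArg ρ (hθ p)).trans ((AdjoinRoot.lift_mk h5 p).trans (eval₂_at_zero _))

end Pool.Agent.Lib.MP_9e3d42_al.AD
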