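import Pool.Agent.Lib.MP_9e3d42_al.AD.TwM
import Pool.Agent.Lib.MP_9e3d42_al.CS.Emb

/-! Towers over complete intersections of embedding dimension at most three in height one. -/

open Module TensorProduct IsLocalRing RingTheory.Sequence Polynomial

universe u v

namespace Pool.Agent.Lib.MP_9e3d42_al.AD

open TW

variable {T T' K : Type u} [CommRing T] [CommRing T'] [Field K]

/-- The hypotheses of the structure theorem in embedding dimension three. -/
def Dat3 (T : Type u) [CommRing T] [IsLocalRing T] (fs : List T) : Prop :=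
  IsRegular T fs ∧ ringKrullDim (T ⧸ Ideal.ofList fs) = 1 ∧
    ∃ x y z : T ⧸ Ideal.ofList fs, Ideal.span {x, y, z} =
      (maximalIdeal T).map (Ideal.Quotient.mk _) ∧
      ((ringChar (ResidueField T) : T ⧸ Ideal.ofList fs) = 0 ∨
        (x = ringChar (ResidueField T) ∧ x ∈ nonZeroDivisors _))

lemma Dat3.flat [IsRegularLocalRing T] [IsLocalRing T'] [IsNoetherianRing T'] [Algebra T T']
    [Module.Flat T T'] (e : (maximalIdeal T).map (algebraMap T T') = maximalIdeal T')
    {fs : List T} (h : Dat3 T fs) :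
    IsRegularLocalRing T' ∧ Dat3 T' (fs.map (algebraMap T T')) := by
  obtain ⟨h1, h3, x, y, z, h2, h4⟩ := h
  have : IsLocalHom (algebraMap T T') := ((local_hom_TFAE _).out 0 2).2 e.le
  have := Module.FaithfullyFlat.of_flat_of_isLocalHom (A := T) (B := T')
  obtain ⟨d, hd⟩ := reg_rs (R := T)
  have hd' := hd.flat (T' := T')
  rw [e, Ideal.map_bot] at hd'
  have h5 := h1.of_faithfullyFlat (S := T')
  have hp : ringChar (ResidueField T') = ringChar (ResidueField T) :=
    (Algebra.ringChar_eq _ _).symm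
  obtain ⟨ψ, h6, h7⟩ := flat_quot' (T' := T') _ (Ideal.map_ofList (algebraMap T T') fs)
  refine ⟨hd'.reg, h5, ?_, ψ x, ψ y, ψ z, ?_, ?_⟩
  · have k1 := ringKrullDim_add_length_eq_ringKrullDim_of_isRegular _ h1
    have k2 := ringKrullDim_add_length_eq_ringKrullDim_of_isRegular _ h5
    rw [hd'.dim_bot, ← hd.dim_bot, ← k1, h3, List.length_map] at k2
    exact ENat.WithBot.add_natCast_cancel.1 k2
  · have := congrArg (Ideal.map ψ) h2
    rw [Ideal.map_span, Set.image_insert_eq, Set.image_insert_eq, Set.image_singleton,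
      Ideal.map_map] at this
    rw [this, ← e, Ideal.map_map]
    exact congrArg (Ideal.map · _) (RingHom.ext h7)
  · rw [hp]
    exact h4.imp (fun k => by rw [← map_natCast ψ, k, map_zero]) fun k =>
      ⟨by rw [k.1, map_natCast], nzd_flat h6 k.2⟩

lemma cov_nil3 [IsRegularLocalRing T] {fs : List T} (h : Dat3 T fs)
    (π : T ⧸ Ideal.ofList fs →+* K)
    (hπ : RingHom.ker (π.comp (Ideal.Quotient.mk _)) = maximalIdeal T) : Cov.{u, v} π [] := by
  obtain ⟨h1, h3, h4⟩ := h
  have hs := Ideal.Quotient.mk_surjective (I := Ideal.ofList fs)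
  have := π.domain_nontrivial
  have := IsLocalRing.of_surjective' _ hs
  obtain ⟨O, _, _, _, _, w, F, G, hw, h6, ⟨e⟩⟩ := CS.cohen_ci' T _ h1 h3
    (map_maximalIdeal_of_surjective _ hs ▸ h4)
  have : IsPrecomplete (Ideal.span {w}) O := hw.maximalIdeal_eq ▸ inferInstance
  obtain ⟨_, hG⟩ := (good_ps.{v} hw h6).equiv hw.ne_zero e.symm
  let π0 : ResidueField (T ⧸ Ideal.ofList fs) →+* K := Ideal.Quotient.lift _ π fun z hz => by
    rw [← map_maximalIdeal_of_surjective _ hs] at hz
    obtain ⟨z, h7, rfl⟩ := (Ideal.mem_map_iff_of_surjective _ hs).1 hz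
    exact hπ.ge h7
  let ε := RingEquiv.ofBijective _
    (AdicCompletion.residueField_map_bijective (R := T ⧸ Ideal.ofList fs))
  refine ⟨O, _, ‹_›, ‹_›, ‹_›, w, _, _, inferInstance, _, algebraMap _ _,
    (π0.comp ε.symm.toRingHom).comp (residue _), hw, hG,
    RingHom.flat_algebraMap_iff.2 inferInstance, RingHom.ext fun z => ?_, ?_, by simp⟩
  · exact congrArg π0 (ε.symm_apply_apply (residue _ z))
  · rw [RingHom.ker_comp_of_injective _ (RingHom.injective _), ker_residue]

theorem cov_base3 (s : List K) : ∀ (T : Type u) [CommRing T] [IsRegularLocalRing T] {fs : List T}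
    (_ : Dat3 T fs) (π : T ⧸ Ideal.ofList fs →+* K)
    (_ : RingHom.ker (π.comp (Ideal.Quotient.mk _)) = maximalIdeal T)
    (_ : ∀ a ∈ s, π.IsIntegralElem a), Cov.{u, v} π s := by
  induction s with
  | nil => exact fun T _ _ _ h π hπ _ => cov_nil3 h π hπ
  | cons a s ih =>
    intro T _ _ fs h π hπ hs
    have hi : ∀ b ∈ a :: s, (π.comp (Ideal.Quotient.mk _)).IsIntegralElem b := fun b hb => by
      obtain ⟨p, h1, h2⟩ := hs b hb
      obtain ⟨q, rfl, -, h3⟩ := lifts_and_natDegree_eq_and_monic ((mem_lifts _).2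
        (map_surjective _ Ideal.Quotient.mk_surjective p)) h1
      exact ⟨q, h3, by rwa [eval₂_map] at h2⟩
    obtain ⟨T', _, _, _, _, π', _, h1, h2, h3, t, h4⟩ := inflate _ hπ (hi a List.mem_cons_self)
    obtain ⟨_, h5⟩ := h.flat h1
    obtain ⟨ψ, h6, h7⟩ := flat_quot' (T' := T') _ (Ideal.map_ofList (algebraMap T T') fs)
    let π1 : T' ⧸ Ideal.ofList (fs.map (algebraMap T T')) →+* K := Ideal.Quotient.lift _ π'
      fun z hz => h3.ge (le_maximalIdeal (fun e => h5.1.top_ne_smul (by
        rw [e, Submodule.top_smul])) hz)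
    have e1 : π1.comp (Ideal.Quotient.mk _) = π' := RingHom.ext fun _ => rfl
    have e2 : π1.comp ψ = π := Ideal.Quotient.ringHom_ext (RingHom.ext fun z =>
      (congrArg π1 (h7 z)).trans (RingHom.congr_fun h2 z))
    obtain ⟨O, _, _, _, _, x, C, _, _, _, χ, ρ, k1, k2, k3, k4, k5, k6⟩ := ih T' h5 π1 (e1 ▸ h3)
      fun b hb => RingHom.IsIntegralElem.of_comp (e2 ▸ hs b (List.mem_cons_of_mem _ hb))
    refine ⟨O, _, ‹_›, ‹_›, ‹_›, x, C, _, ‹_›, _, χ.comp ψ, ρ, k1, k2, h6.comp k3,
      by rw [← RingHom.comp_assoc, k4, e2], k5, fun b hb => ?_⟩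
    obtain rfl | hb := List.mem_cons.1 hb
    · exact ⟨_, (RingHom.congr_fun k4 (Ideal.Quotient.mk _ t)).trans h4⟩
    · exact k6 b hb

variable {S : Type u} [CommRing S]

lemma loc_quot [Algebra S T] (I : Ideal S) (P : Ideal (S ⧸ I)) [P.IsPrime]
    [IsLocalization.AtPrime T (P.comap (Ideal.Quotient.mk I))] {I' : Ideal T}
    (h : I.map (algebraMap S T) = I') : ∃ ε : Localization.AtPrime P ≃+* T ⧸ I',
      ∀ s, ε (algebraMap _ _ (Ideal.Quotient.mk I s)) = Ideal.Quotient.mk I' (algebraMap S T s) := by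
  subst h
  have e : Algebra.algebraMapSubmonoid (S ⧸ I) (P.comap (Ideal.Quotient.mk I)).primeCompl =
      P.primeCompl := by
    ext z
    obtain ⟨z, rfl⟩ := Ideal.Quotient.mk_surjective z
    exact ⟨fun ⟨t, h1, h2⟩ => h2 ▸ h1, fun h => ⟨z, h, rfl⟩⟩
  have : IsLocalization P.primeCompl (T ⧸ I.map (algebraMap S T)) := e ▸ inferInstance
  exact ⟨(IsLocalization.algEquiv P.primeCompl _ _).toRingEquiv, fun s =>
    (IsLocalization.algEquiv P.primeCompl _ _).commutes _⟩

variable {fs : List S}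

lemma loc_dim (hfs : IsRegular S fs) {c w : S ⧸ Ideal.ofList fs} (hc0 : c ∈ nonZeroDivisors _)
    (P : Ideal (S ⧸ Ideal.ofList fs)) [P.IsPrime] (hP : ∀ r, r ∈ P ↔ c ∣ r * w) [Algebra S T]
    [IsLocalization.AtPrime T (P.comap (Ideal.Quotient.mk _))] [IsRegularLocalRing T] :
    IsRegular T (fs.map (algebraMap S T)) ∧
      ringKrullDim (T ⧸ Ideal.ofList (fs.map (algebraMap S T))) = 1 := by
  obtain ⟨a, rfl⟩ := Ideal.Quotient.mk_surjective c
  obtain ⟨v, rfl⟩ := Ideal.Quotient.mk_surjective w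
  set Q := P.comap (Ideal.Quotient.mk (Ideal.ofList fs))
  have hQv : ∀ z, z ∈ Q ↔ z * v ∈ Ideal.ofList (fs ++ [a]) := fun z => by
    rw [Ideal.mem_comap, hP, ← map_mul, ← Ideal.mem_span_singleton, ← Set.image_singleton,
      ← Ideal.map_span, Ideal.mem_quotient_iff_mem_sup, sup_comm, Ideal.ofList_append,
      Ideal.ofList_singleton]
  have e : fs.map (algebraMap S T) ++ [algebraMap S T a] = (fs ++ [a]).map (algebraMap S T) := by
    simp
  refine dim_one' (a := algebraMap S T a) (u := algebraMap S T v) ?_ ?_ fun r hr => ?_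
  · refine e ▸ (weakly_snoc.2 ⟨hfs.1, fun μ hμ => ?_⟩).isRegular_of_isLocalization_of_mem T Q
      fun r hr => (hQv r).2 (Ideal.mul_mem_right _ _ (Ideal.subset_span hr))
    exact Ideal.Quotient.eq_zero_iff_mem.1 (mem_nonZeroDivisors_iff_left.1 hc0 _
      (Ideal.Quotient.eq_zero_iff_mem.2 hμ))
  · rw [e, ← Ideal.map_ofList, IsLocalization.algebraMap_mem_map_algebraMap_iff Q.primeCompl]
    exact fun ⟨s, h3, h4⟩ => h3 ((hQv s).2 h4)
  · rw [← IsLocalization.AtPrime.map_eq_maximalIdeal Q T] at hr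
    have := Ideal.mul_mem_mul hr
      (Ideal.mem_map_of_mem (algebraMap S T) (Ideal.mem_span_singleton_self v))
    rw [← Ideal.map_mul] at this
    rw [e, ← Ideal.map_ofList]
    refine Ideal.map_mono (Ideal.mul_le.2 fun z hz w hw => ?_) this
    obtain ⟨c, rfl⟩ := Ideal.mem_span_singleton.1 hw
    exact mul_assoc z v c ▸ Ideal.mul_mem_right _ _ ((hQv z).1 hz)

/-- The maximal ideals of the localizations at the primes of height one have three generators,
the first being the residue characteristic unless that is zero in the localization. -/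
def Emb3 (B : Type u) [CommRing B] : Prop :=
  ∀ (P : Ideal B) [P.IsPrime], P.height = 1 → ∃ x y z : Localization.AtPrime P,
    Ideal.span {x, y, z} = maximalIdeal _ ∧
      ((ringChar P.ResidueField : Localization.AtPrime P) = 0 ∨ x = ringChar P.ResidueField)

variable [IsRegularLocalRing S]

lemma cov_zero3 (hfs : IsRegular S fs) (hE : Emb3 (S ⧸ Ideal.ofList fs))
    (π : S ⧸ Ideal.ofList fs →+* K)
    {c w : S ⧸ Ideal.ofList fs} (h0 : c ∈ nonZeroDivisors _) (h : ∀ r, π r = 0 ↔ c ∣ r * w)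
    (hc : (ringChar K : S ⧸ Ideal.ofList fs) = 0 ∨
      (ringChar K : S ⧸ Ideal.ofList fs) ∈ nonZeroDivisors _)
    {s : List K} (hs : ∀ a ∈ s, π.IsIntegralElem a) : Cov.{u, v} π s := by
  have := RingHom.ker_isPrime π
  let Q := (RingHom.ker π).comap (Ideal.Quotient.mk _)
  let T := Localization.AtPrime Q
  have : IsRegularLocalRing T := serre Q
  obtain ⟨h7, h8⟩ := loc_dim (T := T) hfs h0 (RingHom.ker π) h
  obtain ⟨ψ, h4, h5⟩ := flat_quot Q.primeCompl _ (Ideal.map_ofList (algebraMap S T) fs)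
  obtain ⟨ε, h1⟩ := loc_quot (T := T) _ (RingHom.ker π) (Ideal.map_ofList (algebraMap S T) fs)
  obtain ⟨x, y, z, h2, h3⟩ := hE (RingHom.ker π) (by
    have := IsLocalization.AtPrime.ringKrullDim_eq_height (RingHom.ker π)
      (Localization.AtPrime (RingHom.ker π))
    rw [ringKrullDim_eq_of_ringEquiv ε, h8] at this
    exact_mod_cast this.symm)
  let π1 : T →+* K := IsLocalization.lift (M := Q.primeCompl) (g := π.comp (Ideal.Quotient.mk _))
    fun y => Ne.isUnit y.2
  have e1 : ∀ z, π1 (algebraMap S T z) = π (Ideal.Quotient.mk _ z) := IsLocalization.lift_eq _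
  have e2 : RingHom.ker π1 = maximalIdeal T := by
    refine ((maximalIdeal.isMaximal T).eq_of_le (RingHom.ker_ne_top π1) ?_).symm
    rw [← Localization.AtPrime.map_eq_maximalIdeal]
    exact Ideal.map_le_iff_le_comap.2 fun z hz => (e1 z).trans hz
  let π2 : T ⧸ Ideal.ofList (fs.map (algebraMap S T)) →+* K := Ideal.Quotient.lift _ π1
    fun z hz => e2.ge (le_maximalIdeal (fun e => h7.top_ne_smul (by
      rw [e, Submodule.top_smul])) hz)
  have e3 : π2.comp ψ = π := Ideal.Quotient.ringHom_ext (RingHom.ext fun z =>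
    (congrArg π2 (h5 z)).trans (e1 z))
  have e4 : ringChar (ResidueField T) = ringChar K := by
    let π3 : ResidueField T →+* K := Ideal.Quotient.lift _ π1 e2.ge
    let _ := π3.toAlgebra
    exact Algebra.ringChar_eq _ _
  have e5 : ringChar (RingHom.ker π).ResidueField = ringChar K := by
    let _ := (Ideal.ResidueField.lift (RingHom.ker π) π le_rfl fun _ h => Ne.isUnit h).toAlgebra
    exact Algebra.ringChar_eq _ _
  rw [e5] at h3
  refine e3 ▸ (cov_base3 s T ⟨h7, h8, ε x, ε y, ε z, ?_, ?_⟩ π2 e2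
    fun a ha => RingHom.IsIntegralElem.of_comp (e3 ▸ hs a ha)).comp h4
  · have hs := Ideal.Quotient.mk_surjective (I := Ideal.ofList (fs.map (algebraMap S T)))
    have := π2.domain_nontrivial
    have := IsLocalRing.of_surjective' _ hs
    have k := congrArg (Ideal.map ε.toRingHom) h2
    rw [Ideal.map_span, Set.image_insert_eq, Set.image_insert_eq, Set.image_singleton,
      map_maximalIdeal_of_surjective _ ε.surjective] at k
    rw [map_maximalIdeal_of_surjective _ hs]
    exact k
  · rw [e4]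
    obtain k | k := hc
    · exact .inl (by rw [← map_natCast ψ, k, map_zero])
    exact h3.imp (fun k => by rw [← map_natCast ε, k, map_zero]) fun k' =>
      ⟨by rw [k', map_natCast], by rw [k', map_natCast, ← map_natCast ψ]; exact nzd_flat h4 k⟩

variable (A : ℕ → Type u) [∀ i, CommRing (A i)] [∀ i, Algebra (A i) (A (i + 1))]

theorem cov_tower3 (hfs : IsRegular S fs) (hE : Emb3 (S ⧸ Ideal.ofList fs))
    (e : A 0 ≃+* S ⧸ Ideal.ofList fs) (m : ℕ) :
    ∀ (_ : ∀ i < m, Nonempty (PowerBasis (A i) (A (i + 1)))) (π : A m →+* K)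
    {c w : A m} (_ : c ∈ nonZeroDivisors _) (_ : ∀ r, π r = 0 ↔ c ∣ r * w)
    (_ : (ringChar K : A m) = 0 ∨ (ringChar K : A m) ∈ nonZeroDivisors _)
    {s : List K} (_ : ∀ a ∈ s, π.IsIntegralElem a), Cov.{u, v} π s := by
  induction m with
  | zero =>
    intro _ π c w h0 h hc s hs
    have e1 : (π.comp e.symm.toRingHom).comp e.toRingHom = π :=
      RingHom.ext fun z => congrArg π (e.symm_apply_apply z)
    have hf := RingHom.Flat.of_bijective (f := e.toRingHom) e.bijective
    refine e1 ▸ (cov_zero3 hfs hE _ (w := e w) (nzd_flat hf h0) (fun r => ?_)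
      (hc.imp (fun k => by rw [← map_natCast e, k, map_zero]) fun k =>
        map_natCast e.toRingHom _ ▸ nzd_flat hf k)
      fun a ha => RingHom.IsIntegralElem.of_comp (e1.symm ▸ hs a ha)).comp hf
    obtain ⟨r, rfl⟩ := e.surjective r
    rw [← map_mul]
    exact (Iff.of_eq (congrArg (π · = 0) (e.symm_apply_apply r))).trans
      ((h r).trans (map_dvd_iff e).symm)
  | succ m ih =>
    intro pb π c w h0 h hc s hs
    have : IsNoetherianRing (A 0) := isNoetherianRing_of_ringEquiv _ e.symm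
    have := tower_noeth A m fun i hi => pb i (by omega)
    obtain ⟨p⟩ := pb m (by omega)
    obtain ⟨c', h1, w', h2⟩ := ass_down p.basis π h0 h
    have := π.domain_nontrivial
    have := Module.Free.of_basis p.basis
    have := p.finite
    have hi := FaithfulSMul.algebraMap_injective (A m) (A (m + 1))
    have hI : (algebraMap (A m) (A (m + 1))).IsIntegral :=
      algebraMap_isIntegral_iff.2 inferInstance
    refine Cov.step p π (ih (fun i hi => pb i (by omega)) _ h1 h2 (hc.imp
      (fun k => hi (by rw [map_natCast, k, map_zero])) fun k =>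
        mem_nonZeroDivisors_of_injective hi (by rw [map_natCast]; exact k)) fun a ha => ?_)
    obtain rfl | ha := List.mem_cons.1 ha
    · exact (hI _).map π
    · let _ := π.toAlgebra
      let _ := (π.comp (algebraMap (A m) (A (m + 1)))).toAlgebra
      have : IsScalarTower (A m) (A (m + 1)) K := .of_algebraMap_eq fun _ => rfl
      exact isIntegral_trans (R := A m) (A := A (m + 1)) a (hs a ha)

theorem free_of_tower3 {R : Type*} [CommRing R] [IsDomain R] [IsLocalRing R]
    [IsNoetherianRing R] (hfs : IsRegular S fs) (hE : Emb3 (S ⧸ Ideal.ofList fs))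
    (e : A 0 ≃+* S ⧸ Ideal.ofList fs) (m : ℕ)
    (pb : ∀ i < m, Nonempty (PowerBasis (A i) (A (i + 1)))) (φ : R →+* A m)
    (hφ : φ.FaithfullyFlat)
    (M : Type v) [AddCommGroup M] [Module R M] [Module.Finite R M] [IsTorsionFree R M]
    [IsReflexive R (M ⊗[R] Dual R M)] : Module.Free R M := by
  have : IsNoetherianRing (A 0) := isNoetherianRing_of_ringEquiv _ e.symm
  have := tower_noeth A m pb
  refine free_of_cover.{u} fun a ha u hu => ?_
  obtain ⟨P, hP, hle⟩ := exists_le_isAssociatedPrime_of_isNoetherianRing (A m)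
    (Ideal.Quotient.mk (Ideal.span {φ a}) (φ u)) fun h => hu (by
      rwa [Ideal.Quotient.eq_zero_iff_mem, ← Set.image_singleton, ← Ideal.map_span,
        ← Ideal.mem_comap, comap_map_of_ff hφ, Ideal.mem_span_singleton] at h)
  obtain ⟨hp, w, hw⟩ := isAssociatedPrime_iff.1 hP
  obtain ⟨w, rfl⟩ := Ideal.Quotient.mk_surjective w
  have hcol : ∀ v z : A m, z ∈ (⊥ : Submodule (A m) (A m ⧸ Ideal.span {φ a})).colon
      {Ideal.Quotient.mk _ v} ↔ φ a ∣ z * v := fun v z =>
    Submodule.mem_colon_singleton.trans ((Ideal.Quotient.eq_zero_iff_mem (a := z * v)).trans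
      Ideal.mem_span_singleton)
  let π := algebraMap (A m) P.ResidueField
  obtain ⟨O, _, _, _, _, x, C, _, _, _, ψ, ρ, k1, k2, k3, k4, k5, -⟩ :=
    cov_tower3.{u, max u v} A hfs hE e m pb π (w := w) (nzd_of_flat hφ.flat ha)
    (fun r => Ideal.algebraMap_residueField_eq_zero.trans (hw ▸ hcol w r)) (by
      by_cases k2 : (ringChar P.ResidueField : R) = 0
      · exact .inl (by rw [← map_natCast φ, k2, map_zero])
      · exact .inr (map_natCast φ _ ▸ nzd_of_flat hφ.flat k2)) (s := []) (by simp)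
  let _ := (ψ.comp φ).toAlgebra
  have : Module.Flat R C := hφ.flat.comp k3
  refine ⟨C, _, _, ‹_›, good_proj k1 M k2, _, (maximalIdeal.isMaximal C).ne_top,
    fun y hy => k5.le ((RingHom.congr_fun k4 (φ y)).trans
      (Ideal.algebraMap_residueField_eq_zero.2 (hle ((hcol _ _).2 ?_))))⟩
  rw [← map_mul]
  exact map_dvd φ hy

end Pool.Agent.Lib.MP_9e3d42_al.AD
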