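import Pool.Agent.Lib.MP_9e3d42_al.AD.Loc2
import Pool.Agent.Lib.MP_9e3d42_al.AD.TwC

/-! Finite extensions of the residue field and good covers at a point. -/

open Module TensorProduct IsLocalRing RingTheory.Sequence Polynomial

universe u v

namespace Pool.Agent.Lib.MP_9e3d42_al.AD

open TW

variable {T T' K : Type u} [CommRing T] [CommRing T'] [Field K]

lemma flat_quot' [Algebra T T'] [Module.Flat T T'] (I : Ideal T) {I' : Ideal T'}
    (h : I.map (algebraMap T T') = I') : ∃ ψ : T ⧸ I →+* T' ⧸ I', ψ.Flat ∧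
      ∀ s, ψ (Ideal.Quotient.mk I s) = Ideal.Quotient.mk I' (algebraMap T T' s) := by
  subst h
  exact ⟨algebraMap _ _, RingHom.flat_algebraMap_iff.2 (Module.Flat.of_linearEquiv
    (Algebra.TensorProduct.quotIdealMapEquivQuotTensor T' I).toLinearEquiv), fun _ => rfl⟩

lemma nzd_flat {B B' : Type*} [CommRing B] [CommRing B'] {ψ : B →+* B'} (h : ψ.Flat) {c : B}
    (hc : c ∈ nonZeroDivisors B) : ψ c ∈ nonZeroDivisors B' := by
  let _ := ψ.toAlgebra
  have : Module.Flat B B' := h
  exact mem_nonZeroDivisors_iff_left.2 fun y hy => (Module.Flat.isSMulRegular_of_nonZeroDivisors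
    hc).right_eq_zero_of_smul ((Algebra.smul_def _ _).trans hy)

lemma RS.flat [Algebra T T'] [Module.Flat T T'] {m J : Ideal T} {d : ℕ} (h : RS m J d) :
    RS (m.map (algebraMap T T')) (J.map (algebraMap T T')) d := by
  induction h with
  | zero => exact RS.zero
  | succ J d x h1 h2 _ ih =>
    obtain ⟨ψ, h3, h4⟩ := flat_quot' (T' := T') J rfl
    refine RS.succ _ d (algebraMap T T' x) (Ideal.mem_map_of_mem _ h1) (fun μ hμ => ?_) ?_
    · have := nzd_flat h3 (c := Ideal.Quotient.mk J x) (mem_nonZeroDivisors_iff_left.2 fun y hy => by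
        obtain ⟨y, rfl⟩ := Ideal.Quotient.mk_surjective y
        exact Ideal.Quotient.eq_zero_iff_mem.2 (h2 y (Ideal.Quotient.eq_zero_iff_mem.1 hy)))
      rw [h4] at this
      exact Ideal.Quotient.eq_zero_iff_mem.1 (mem_nonZeroDivisors_iff_left.1 this _
        (Ideal.Quotient.eq_zero_iff_mem.2 hμ))
    · rwa [Ideal.map_sup, Ideal.map_span, Set.image_singleton] at ih

/-- The hypotheses of the structure theorem. -/
def Dat (T : Type u) [CommRing T] [IsLocalRing T] (fs : List T) : Prop :=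
  IsRegular T fs ∧ fs.length ≤ 2 ∧ ringKrullDim (T ⧸ Ideal.ofList fs) = 1 ∧
    ((ringChar (ResidueField T) : T ⧸ Ideal.ofList fs) = 0 ∨
      ((ringChar (ResidueField T) : T) ∉ maximalIdeal T ^ 2 ∧
        (ringChar (ResidueField T) : T ⧸ Ideal.ofList fs) ∈ nonZeroDivisors _))

lemma Dat.flat [IsRegularLocalRing T] [IsLocalRing T'] [IsNoetherianRing T'] [Algebra T T']
    [Module.Flat T T'] (e : (maximalIdeal T).map (algebraMap T T') = maximalIdeal T')
    {fs : List T} (h : Dat T fs) :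
    IsRegularLocalRing T' ∧ Dat T' (fs.map (algebraMap T T')) := by
  obtain ⟨h1, h2, h3, h4⟩ := h
  have : IsLocalHom (algebraMap T T') := ((local_hom_TFAE _).out 0 2).2 e.le
  have := Module.FaithfullyFlat.of_flat_of_isLocalHom (A := T) (B := T')
  obtain ⟨d, hd⟩ := reg_rs (R := T)
  have hd' := hd.flat (T' := T')
  rw [e, Ideal.map_bot] at hd'
  have h5 := h1.of_faithfullyFlat (S := T')
  have hp : ringChar (ResidueField T') = ringChar (ResidueField T) :=
    (Algebra.ringChar_eq _ _).symm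
  obtain ⟨ψ, h6, h7⟩ := flat_quot' (T' := T') _ (Ideal.map_ofList (algebraMap T T') fs)
  refine ⟨hd'.reg, h5, by simpa using h2, ?_, ?_⟩
  · have k1 := ringKrullDim_add_length_eq_ringKrullDim_of_isRegular _ h1
    have k2 := ringKrullDim_add_length_eq_ringKrullDim_of_isRegular _ h5
    rw [hd'.dim_bot, ← hd.dim_bot, ← k1, h3, List.length_map] at k2
    exact ENat.WithBot.add_natCast_cancel.1 k2
  · rw [hp]
    refine h4.imp (fun k => by rw [← map_natCast ψ, k, map_zero]) fun k => ⟨fun k' => k.1 ?_,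
      map_natCast ψ _ ▸ nzd_flat h6 k.2⟩
    rw [← e, ← Ideal.map_pow, ← map_natCast (algebraMap T T')] at k'
    exact (Ideal.comap_map_eq_self_of_faithfullyFlat (B := T') _).le k'

lemma inflate [IsLocalRing T] [IsNoetherianRing T] (π : T →+* K)
    (hπ : RingHom.ker π = maximalIdeal T) {a : K} (ha : π.IsIntegralElem a) :
    ∃ (T' : Type u) (_ : CommRing T') (_ : IsLocalRing T') (_ : IsNoetherianRing T')
      (_ : Algebra T T') (π' : T' →+* K), Module.Flat T T' ∧
      (maximalIdeal T).map (algebraMap T T') = maximalIdeal T' ∧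
      π'.comp (algebraMap T T') = π ∧ RingHom.ker π' = maximalIdeal T' ∧ a ∈ π'.range := by
  let π0 : ResidueField T →+* K := Ideal.Quotient.lift _ π hπ.ge
  have e0 : π0.comp (residue T) = π := RingHom.ext fun _ => rfl
  let _ := π0.toAlgebra
  have hi : IsIntegral (ResidueField T) a := RingHom.IsIntegralElem.of_comp (e0 ▸ ha)
  have hs : ∀ q : (ResidueField T)[X], ∃ p : T[X], p.map (residue T) = q :=
    map_surjective _ residue_surjective
  obtain ⟨h, h1, -, h2⟩ := lifts_and_natDegree_eq_and_monic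
    ((mem_lifts _).2 (hs (minpoly _ a))) (minpoly.monic hi)
  have h3 : h.eval₂ π a = 0 := by rw [← e0, ← eval₂_map, h1]; exact minpoly.aeval _ a
  have := (AdjoinRoot.powerBasis' h2).finite
  have := Module.Free.of_basis (AdjoinRoot.powerBasis' h2).basis
  let π' := AdjoinRoot.lift π a h3
  have h4 : RingHom.ker π' ≤ (maximalIdeal T).map (algebraMap T (AdjoinRoot h)) := fun z hz => by
    obtain ⟨p, rfl⟩ := AdjoinRoot.mk_surjective z
    rw [RingHom.mem_ker, AdjoinRoot.lift_mk, ← e0, ← eval₂_map] at hz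
    obtain ⟨q, hq⟩ := minpoly.dvd _ a hz
    obtain ⟨q, rfl⟩ := hs q
    have : p - h * q ∈ RingHom.ker (mapRingHom (residue T)) := by
      simp [RingHom.mem_ker, hq, h1]
    rw [ker_mapRingHom, ker_residue] at this
    have := Ideal.mem_map_of_mem (AdjoinRoot.mk h) this
    rwa [Ideal.map_map, map_sub, map_mul, AdjoinRoot.mk_self, zero_mul, sub_zero] at this
  have h5 : ∀ z ∈ maximalIdeal T, π' (algebraMap T _ z) = 0 := fun z hz => by
    rw [AdjoinRoot.algebraMap_eq, AdjoinRoot.lift_of]; exact hπ.ge hz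
  obtain ⟨_, hk⟩ := local_of_pt (C := T) π' h5 (h4.trans Ideal.le_radical)
  exact ⟨AdjoinRoot h, _, ‹_›, .of_finite T _, _, π', inferInstance,
    le_antisymm (Ideal.map_le_iff_le_comap.2 fun z hz => hk.le (h5 z hz)) (hk.ge.trans h4),
    AdjoinRoot.lift_comp_of h3, hk, _, AdjoinRoot.lift_root h3⟩

/-- A flat map to a good local ring through which the point `π` factors, whose residue field
contains the elements of `s`. -/
def Cov {B : Type u} [CommRing B] (π : B →+* K) (s : List K) : Prop :=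
  ∃ (O : Type u) (_ : CommRing O) (_ : IsDomain O) (_ : IsDiscreteValuationRing O)
    (_ : IsAdicComplete (maximalIdeal O) O) (x : O) (C : Type u) (_ : CommRing C)
    (_ : IsLocalRing C) (_ : Algebra O C) (ψ : B →+* C) (ρ : C →+* K), Irreducible x ∧
    Good.{v} x C ∧ ψ.Flat ∧ ρ.comp ψ = π ∧ RingHom.ker ρ = maximalIdeal C ∧ ∀ a ∈ s, a ∈ ρ.range

lemma Cov.comp {B B' : Type u} [CommRing B] [CommRing B'] {π : B →+* K} {s : List K}
    (h : Cov.{u, v} π s) {χ : B' →+* B} (hχ : χ.Flat) : Cov.{u, v} (π.comp χ) s := by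
  obtain ⟨O, _, _, _, _, x, C, _, _, _, ψ, ρ, h1, h2, h3, rfl, h5, h6⟩ := h
  exact ⟨O, _, ‹_›, ‹_›, ‹_›, x, C, _, ‹_›, _, ψ.comp χ, ρ, h1, h2, hχ.comp h3, rfl, h5, h6⟩

lemma cov_nil [IsRegularLocalRing T] {fs : List T} (h : Dat T fs) (π : T ⧸ Ideal.ofList fs →+* K)
    (hπ : RingHom.ker (π.comp (Ideal.Quotient.mk _)) = maximalIdeal T) : Cov.{u, v} π [] := by
  obtain ⟨h1, h2, h3, h4⟩ := h
  have hs := Ideal.Quotient.mk_surjective (I := Ideal.ofList fs)
  have := π.domain_nontrivial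
  have := IsLocalRing.of_surjective' _ hs
  obtain ⟨O, _, _, _, _, w, F, G, hw, h6, ⟨e⟩⟩ := CS.cohen_ci T _ h1 h2 h3 h4
  have : IsPrecomplete (Ideal.span {w}) O := hw.maximalIdeal_eq ▸ inferInstance
  obtain ⟨_, hG⟩ := (good_ps.{v} hw h6).equiv hw.ne_zero e.symm
  let π0 : ResidueField (T ⧸ Ideal.ofList fs) →+* K := Ideal.Quotient.lift _ π fun z hz => by
    rw [← map_maximalIdeal_of_surjective _ hs] at hz
    obtain ⟨z, h7, rfl⟩ := (Ideal.mem_map_iff_of_surjective _ hs).1 hz
    exact hπ.ge h7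
  let ε := RingEquiv.ofBijective _
    (AdicCompletion.residueField_map_bijective (R := T ⧸ Ideal.ofList fs))
  refine ⟨O, _, ‹_›, ‹_›, ‹_›, w, _, _, inferInstance, _, algebraMap _ _,
    (π0.comp ε.symm.toRingHom).comp (residue _), hw, hG,
    RingHom.flat_algebraMap_iff.2 inferInstance, RingHom.ext fun z => ?_, ?_, by simp⟩
  · exact congrArg π0 (ε.symm_apply_apply (residue _ z))
  · rw [RingHom.ker_comp_of_injective _ (RingHom.injective _), ker_residue]

theorem cov_base (s : List K) : ∀ (T : Type u) [CommRing T] [IsRegularLocalRing T] {fs : List T}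
    (_ : Dat T fs) (π : T ⧸ Ideal.ofList fs →+* K)
    (_ : RingHom.ker (π.comp (Ideal.Quotient.mk _)) = maximalIdeal T)
    (_ : ∀ a ∈ s, π.IsIntegralElem a), Cov.{u, v} π s := by
  induction s with
  | nil => exact fun T _ _ _ h π hπ _ => cov_nil h π hπ
  | cons a s ih =>
    intro T _ _ fs h π hπ hs
    have hi : ∀ b ∈ a :: s, (π.comp (Ideal.Quotient.mk _)).IsIntegralElem b := fun b hb => by
      obtain ⟨p, h1, h2⟩ := hs b hb
      obtain ⟨q, rfl, -, h3⟩ := lifts_and_natDegree_eq_and_monic ((mem_lifts _).2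
        (map_surjective _ Ideal.Quotient.mk_surjective p)) h1
      exact ⟨q, h3, by rwa [eval₂_map] at h2⟩
    obtain ⟨T', _, _, _, _, π', _, h1, h2, h3, t, h4⟩ := inflate _ hπ (hi a List.mem_cons_self)
    obtain ⟨_, h5⟩ := h.flat h1
    obtain ⟨ψ, h6, h7⟩ := flat_quot' (T' := T') _ (Ideal.map_ofList (algebraMap T T') fs)
    let π1 : T' ⧸ Ideal.ofList (fs.map (algebraMap T T')) →+* K := Ideal.Quotient.lift _ π'
      fun z hz => h3.ge (le_maximalIdeal (fun e => h5.1.top_ne_smul (by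
        rw [e, Submodule.top_smul])) hz)
    have e1 : π1.comp (Ideal.Quotient.mk _) = π' := RingHom.ext fun _ => rfl
    have e2 : π1.comp ψ = π := Ideal.Quotient.ringHom_ext (RingHom.ext fun z =>
      (congrArg π1 (h7 z)).trans (RingHom.congr_fun h2 z))
    obtain ⟨O, _, _, _, _, x, C, _, _, _, χ, ρ, k1, k2, k3, k4, k5, k6⟩ := ih T' h5 π1 (e1 ▸ h3)
      fun b hb => RingHom.IsIntegralElem.of_comp (e2 ▸ hs b (List.mem_cons_of_mem _ hb))
    refine ⟨O, _, ‹_›, ‹_›, ‹_›, x, C, _, ‹_›, _, χ.comp ψ, ρ, k1, k2, h6.comp k3,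
      by rw [← RingHom.comp_assoc, k4, e2], k5, fun b hb => ?_⟩
    obtain rfl | hb := List.mem_cons.1 hb
    · exact ⟨_, (RingHom.congr_fun k4 (Ideal.Quotient.mk _ t)).trans h4⟩
    · exact k6 b hb

theorem Cov.step {A E : Type u} [CommRing A] [CommRing E] [Algebra A E] (pb : PowerBasis A E)
    (π : E →+* K) {s : List K} (h : Cov.{u, v} (π.comp (algebraMap A E)) (π pb.gen :: s)) :
    Cov.{u, v} π s := by
  obtain ⟨O, _, _, _, _, x, C, _, _, _, ψ, ρ, k1, k2, k3, k4, k5, k6⟩ := h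
  let _ := ψ.toAlgebra
  have : Module.Flat A C := k3
  have := k2.fin
  have := compl_fin (O := O) (C := C)
  let _ := (π.comp (algebraMap A E)).toAlgebra
  let π' : C ⊗[A] E →ₐ[A] K := Algebra.TensorProduct.productMap
    { ρ with commutes' := RingHom.congr_fun k4 } { π with commutes' := fun _ => rfl }
  have e1 : π'.toRingHom.comp (algebraMap C _) = ρ := RingHom.ext fun c => by simp [π']
  let pb' : PowerBasis C (C ⊗[A] E) := ⟨1 ⊗ₜ pb.gen, pb.dim, Algebra.TensorProduct.basis C pb.basis,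
    fun i => by simp⟩
  obtain ⟨a, ha⟩ := k6 _ List.mem_cons_self
  obtain ⟨C', _, _, _, pb'', θ, ρ', h1, h2, h3, h4⟩ := local_factor pb' π'.toRingHom (e1 ▸ k5)
    (a := a) ((RingHom.congr_fun e1 a).trans (ha.trans (by simp [π', pb'])))
  let _ := ((algebraMap C C').comp (algebraMap O C)).toAlgebra
  have : IsScalarTower O C C' := .of_algebraMap_eq fun _ => rfl
  refine ⟨O, _, ‹_›, ‹_›, ‹_›, x, C', _, ‹_›, _, θ.toRingHom.comp
    (Algebra.TensorProduct.includeRight (R := A) (A := C) (B := E)).toRingHom, ρ', k1,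
    k2.step k1.ne_zero pb'' h1, RingHom.Flat.comp ?_ h2, ?_, h4, fun b hb => ?_⟩
  · let _ := Algebra.TensorProduct.rightAlgebra (R := A) (A := C) (B := E)
    exact RingHom.flat_algebraMap_iff.2 (Module.Flat.of_linearEquiv
      (Algebra.TensorProduct.commRight A E C).symm.toLinearEquiv)
  · rw [← RingHom.comp_assoc, h3]
    exact RingHom.ext fun z => by simp [π']
  · obtain ⟨c, rfl⟩ := k6 b (List.mem_cons_of_mem _ hb)
    exact ⟨algebraMap C C' c, by
      rw [← θ.commutes, ← e1]; exact RingHom.congr_fun h3 _⟩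

end Pool.Agent.Lib.MP_9e3d42_al.AD
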