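import Pool.Agent.Lib.MP_9e3d42_al.AD.TwI

/-! Towers of monogenic extensions in all dimensions. -/

open Module TensorProduct IsLocalRing RingTheory.Sequence

universe u v

namespace Pool.Agent.Lib.MP_9e3d42_al.AD

open TW

section down

variable {A E ι : Type*} [CommRing A] [CommRing E] [Algebra A E] [Fintype ι]

lemma mccoy [IsNoetherianRing A] (b : Basis ι A E) {c : E} (hc : c ∈ nonZeroDivisors E) :
    ∃ c' ∈ nonZeroDivisors A, ∃ d, algebraMap A E c' = c * d := by
  classical
  let N := Algebra.leftMulMatrix b c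
  have hN : ∀ y, b.equivFun (c * y) = N.mulVec (b.equivFun y) := fun y =>
    (Algebra.leftMulMatrix_mulVec_repr b c y).symm
  refine ⟨N.det, mem_nonZeroDivisors_iff_left.2 fun z hz => ?_,
    b.equivFun.symm (N.adjugate.mulVec (b.equivFun 1)), b.equivFun.injective ?_⟩
  · by_contra h0
    obtain ⟨Q, hQ, hle⟩ := exists_le_isAssociatedPrime_of_isNoetherianRing A z h0
    obtain ⟨hp, y, hy⟩ := isAssociatedPrime_iff.1 hQ
    have hQy : ∀ r, r ∈ Q ↔ r * y = 0 := fun r => hy ▸ Submodule.mem_colon_singleton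
    obtain ⟨v, h1, h2⟩ := (Matrix.exists_mulVec_eq_zero_iff
      (M := (Ideal.Quotient.mk Q).mapMatrix N)).2 (by
        rw [← RingHom.map_det]
        exact Ideal.Quotient.eq_zero_iff_mem.2 (hle (Submodule.mem_colon_singleton.2 hz)))
    choose v' hv' using fun i => Ideal.Quotient.mk_surjective (v i)
    have h3 : c * b.equivFun.symm (y • v') = 0 := b.equivFun.injective (by
      rw [hN, b.equivFun.apply_symm_apply, map_zero, Matrix.mulVec_smul]
      funext i
      refine (mul_comm _ _).trans ((hQy _).1 (Ideal.Quotient.eq_zero_iff_mem.1 ?_))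
      rw [RingHom.map_mulVec, show (Ideal.Quotient.mk Q) ∘ v' = v from funext hv']
      exact congrFun h2 i)
    have h4 := (map_eq_zero_iff _ b.equivFun.symm.injective).1
      (mem_nonZeroDivisors_iff_left.1 hc _ h3)
    refine h1 (funext fun i => (hv' i).symm.trans (Ideal.Quotient.eq_zero_iff_mem.2 ?_))
    exact (hQy _).2 ((mul_comm _ _).trans (congrFun h4 i))
  · rw [hN, b.equivFun.apply_symm_apply, Matrix.mulVec_mulVec, Matrix.mul_adjugate,
      Algebra.algebraMap_eq_smul_one, map_smul, Matrix.smul_mulVec, Matrix.one_mulVec]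

lemma ass_down [IsNoetherianRing A] (b : Basis ι A E) {K : Type*} [Field K] (π : E →+* K)
    {c w : E} (hc : c ∈ nonZeroDivisors E) (h : ∀ r, π r = 0 ↔ c ∣ r * w) :
    ∃ c' ∈ nonZeroDivisors A, ∃ w', ∀ r, π (algebraMap A E r) = 0 ↔ c' ∣ r * w' := by
  obtain ⟨c', h1, d, h2⟩ := mccoy b hc
  have := Module.Free.of_basis b
  have hd : d ∈ nonZeroDivisors E := (mul_mem_nonZeroDivisors.1
    (h2 ▸ nzd_flat (RingHom.flat_algebraMap_iff.2 inferInstance) h1)).2
  have h3 : ∀ r, π (algebraMap A E r) = 0 ↔ ∀ i, c' ∣ r * b.equivFun (w * d) i := fun r => by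
    rw [h]
    constructor
    · rintro ⟨t, ht⟩ i
      have : r • (w * d) = c' • t := by
        rw [Algebra.smul_def, Algebra.smul_def, h2, ← mul_assoc, ht]; ring
      exact ⟨b.equivFun t i, by simpa using congrArg (b.equivFun · i) this⟩
    · intro ht
      choose t ht using ht
      have : r • (w * d) = c' • b.equivFun.symm t := b.equivFun.injective (by
        rw [map_smul, map_smul, b.equivFun.apply_symm_apply]; exact funext ht)
      rw [Algebra.smul_def, Algebra.smul_def, h2] at this
      exact ⟨b.equivFun.symm t, (mul_cancel_right_mem_nonZeroDivisors hd).1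
        (by linear_combination this)⟩
  let I : ι → Ideal A := fun i => (Ideal.span {c'}).colon {b.equivFun (w * d) i}
  have hI : ∀ i r, r ∈ I i ↔ c' ∣ r * b.equivFun (w * d) i := fun i r =>
    Submodule.mem_colon_singleton.trans Ideal.mem_span_singleton
  obtain ⟨i, -, hi⟩ := (RingHom.ker_isPrime (π.comp (algebraMap A E))).inf_le'.1
    (show Finset.univ.inf I ≤ _ from fun r hr => (h3 r).2 fun i => (hI i r).1
      (Finset.inf_le (f := I) (Finset.mem_univ i) hr))
  exact ⟨c', h1, _, fun r => ⟨fun k => (h3 r).1 k i, fun k => hi ((hI i r).2 k)⟩⟩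

end down

variable {S : Type u} [CommRing S] [IsRegularLocalRing S] {fs : List S} {K : Type u} [Field K]

lemma cov_zero (hfs : IsRegular S fs) (hl : fs.length ≤ 2) (π : S ⧸ Ideal.ofList fs →+* K)
    {c w : S ⧸ Ideal.ofList fs} (h0 : c ∈ nonZeroDivisors _) (h : ∀ r, π r = 0 ↔ c ∣ r * w)
    (hc : (ringChar (ResidueField S) : S ⧸ Ideal.ofList fs) = 0 ∨
      ((ringChar (ResidueField S) : S) ∉ maximalIdeal S ^ 2 ∧
        (ringChar (ResidueField S) : S ⧸ Ideal.ofList fs) ∈ nonZeroDivisors _))
    {s : List K} (hs : ∀ a ∈ s, π.IsIntegralElem a) : Cov.{u, v} π s := by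
  have := RingHom.ker_isPrime π
  let Q := (RingHom.ker π).comap (Ideal.Quotient.mk _)
  let T := Localization.AtPrime Q
  obtain ⟨_, c', w', ψ, h1, h2, h3, h4, h5, -, -, h6⟩ := loc_step hfs h0 (RingHom.ker π) h hc T
  obtain ⟨h7, h8⟩ := dim_one' h1 h2 h3
  let π1 : T →+* K := IsLocalization.lift (M := Q.primeCompl) (g := π.comp (Ideal.Quotient.mk _))
    fun y => Ne.isUnit y.2
  have e1 : ∀ z, π1 (algebraMap S T z) = π (Ideal.Quotient.mk _ z) := IsLocalization.lift_eq _
  have e2 : RingHom.ker π1 = maximalIdeal T := by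
    refine ((maximalIdeal.isMaximal T).eq_of_le (RingHom.ker_ne_top π1) ?_).symm
    rw [← Localization.AtPrime.map_eq_maximalIdeal]
    exact Ideal.map_le_iff_le_comap.2 fun z hz => (e1 z).trans hz
  let π2 : T ⧸ Ideal.ofList (fs.map (algebraMap S T)) →+* K := Ideal.Quotient.lift _ π1
    fun z hz => e2.ge (le_maximalIdeal (fun e => h7.top_ne_smul (by
      rw [e, Submodule.top_smul])) hz)
  have e3 : π2.comp ψ = π := Ideal.Quotient.ringHom_ext (RingHom.ext fun z =>
    (congrArg π2 (h5 z)).trans (e1 z))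
  exact e3 ▸ (cov_base s T ⟨h7, by simpa using hl, h8, h6⟩ π2 e2
    fun a ha => RingHom.IsIntegralElem.of_comp (e3 ▸ hs a ha)).comp h4

variable (A : ℕ → Type u) [∀ i, CommRing (A i)] [∀ i, Algebra (A i) (A (i + 1))]

lemma tower_noeth [IsNoetherianRing (A 0)] (m : ℕ)
    (pb : ∀ i < m, Nonempty (PowerBasis (A i) (A (i + 1)))) : IsNoetherianRing (A m) := by
  induction m with
  | zero => assumption
  | succ m ih =>
    have := ih fun i hi => pb i (by omega)
    have := (pb m (by omega)).some.finite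
    exact .of_finite (A m) _

theorem cov_tower (hfs : IsRegular S fs) (hl : fs.length ≤ 2) (e : A 0 ≃+* S ⧸ Ideal.ofList fs)
    (m : ℕ) : ∀ (_ : ∀ i < m, Nonempty (PowerBasis (A i) (A (i + 1)))) (π : A m →+* K)
    {c w : A m} (_ : c ∈ nonZeroDivisors _) (_ : ∀ r, π r = 0 ↔ c ∣ r * w)
    (_ : (ringChar (ResidueField S) : A m) = 0 ∨
      ((ringChar (ResidueField S) : S) ∉ maximalIdeal S ^ 2 ∧
        (ringChar (ResidueField S) : A m) ∈ nonZeroDivisors _))
    {s : List K} (_ : ∀ a ∈ s, π.IsIntegralElem a), Cov.{u, v} π s := by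
  induction m with
  | zero =>
    intro _ π c w h0 h hc s hs
    have e1 : (π.comp e.symm.toRingHom).comp e.toRingHom = π :=
      RingHom.ext fun z => congrArg π (e.symm_apply_apply z)
    have hf := RingHom.Flat.of_bijective (f := e.toRingHom) e.bijective
    refine e1 ▸ (cov_zero hfs hl _ (w := e w) (nzd_flat hf h0) (fun r => ?_)
      (hc.imp (fun k => by rw [← map_natCast e, k, map_zero]) fun k =>
        ⟨k.1, map_natCast e.toRingHom _ ▸ nzd_flat hf k.2⟩)
      fun a ha => RingHom.IsIntegralElem.of_comp (e1.symm ▸ hs a ha)).comp hf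
    obtain ⟨r, rfl⟩ := e.surjective r
    rw [← map_mul]
    exact (Iff.of_eq (congrArg (π · = 0) (e.symm_apply_apply r))).trans
      ((h r).trans (map_dvd_iff e).symm)
  | succ m ih =>
    intro pb π c w h0 h hc s hs
    have : IsNoetherianRing (A 0) := isNoetherianRing_of_ringEquiv _ e.symm
    have := tower_noeth A m fun i hi => pb i (by omega)
    obtain ⟨p⟩ := pb m (by omega)
    obtain ⟨c', h1, w', h2⟩ := ass_down p.basis π h0 h
    have := π.domain_nontrivial
    have := Module.Free.of_basis p.basis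
    have := p.finite
    have hi := FaithfulSMul.algebraMap_injective (A m) (A (m + 1))
    have hI : (algebraMap (A m) (A (m + 1))).IsIntegral :=
      algebraMap_isIntegral_iff.2 inferInstance
    refine Cov.step p π (ih (fun i hi => pb i (by omega)) _ h1 h2 (hc.imp
      (fun k => hi (by rw [map_natCast, k, map_zero])) fun k => ⟨k.1,
        mem_nonZeroDivisors_of_injective hi (by rw [map_natCast]; exact k.2)⟩) fun a ha => ?_)
    obtain rfl | ha := List.mem_cons.1 ha
    · exact (hI _).map π
    · let _ := π.toAlgebra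
      let _ := (π.comp (algebraMap (A m) (A (m + 1)))).toAlgebra
      have : IsScalarTower (A m) (A (m + 1)) K := .of_algebraMap_eq fun _ => rfl
      exact isIntegral_trans (R := A m) (A := A (m + 1)) a (hs a ha)

lemma tower_cast (m : ℕ) (pb : ∀ i < m, Nonempty (PowerBasis (A i) (A (i + 1))))
    (h : Nontrivial (A m)) {n : ℕ} (k : IsUnit (n : A m)) : IsUnit (n : A 0) := by
  induction m with
  | zero => exact k
  | succ m ih =>
    obtain ⟨p⟩ := pb m (by omega)
    have := Module.Free.of_basis p.basis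
    have := p.finite
    exact ih (fun i hi => pb i (by omega)) (algebraMap (A m) (A (m + 1))).domain_nontrivial
      (IsUnit.of_map (algebraMap (A m) (A (m + 1))) _ (by rwa [map_natCast]))

theorem free_of_tower_ci {R : Type*} [CommRing R] [IsDomain R] [IsLocalRing R]
    [IsNoetherianRing R] (hfs : IsRegular S fs) (hl : fs.length ≤ 2)
    (e : A 0 ≃+* S ⧸ Ideal.ofList fs) (m : ℕ)
    (pb : ∀ i < m, Nonempty (PowerBasis (A i) (A (i + 1)))) (φ : R →+* A m)
    (hφ : φ.FaithfullyFlat) (hc : (∃ k : Subring R, IsField k) ∨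
      (ringChar (ResidueField S) : S) ∉ maximalIdeal S ^ 2)
    (M : Type v) [AddCommGroup M] [Module R M] [Module.Finite R M] [IsTorsionFree R M]
    [IsReflexive R (M ⊗[R] Dual R M)] : Module.Free R M := by
  have : IsNoetherianRing (A 0) := isNoetherianRing_of_ringEquiv _ e.symm
  have := tower_noeth A m pb
  refine free_of_cover.{u} fun a ha u hu => ?_
  obtain ⟨P, hP, hle⟩ := exists_le_isAssociatedPrime_of_isNoetherianRing (A m)
    (Ideal.Quotient.mk (Ideal.span {φ a}) (φ u)) fun h => hu (by
      rwa [Ideal.Quotient.eq_zero_iff_mem, ← Set.image_singleton, ← Ideal.map_span,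
        ← Ideal.mem_comap, comap_map_of_ff hφ, Ideal.mem_span_singleton] at h)
  obtain ⟨hp, w, hw⟩ := isAssociatedPrime_iff.1 hP
  obtain ⟨w, rfl⟩ := Ideal.Quotient.mk_surjective w
  have hcol : ∀ v z : A m, z ∈ (⊥ : Submodule (A m) (A m ⧸ Ideal.span {φ a})).colon
      {Ideal.Quotient.mk _ v} ↔ φ a ∣ z * v := fun v z =>
    Submodule.mem_colon_singleton.trans ((Ideal.Quotient.eq_zero_iff_mem (a := z * v)).trans
      Ideal.mem_span_singleton)
  let π := algebraMap (A m) P.ResidueField
  obtain ⟨O, _, _, _, _, x, C, _, _, _, ψ, ρ, k1, k2, k3, k4, k5, -⟩ :=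
    cov_tower.{u, max u v} A hfs hl e m pb π (w := w) (nzd_of_flat hφ.flat ha)
    (fun r => Ideal.algebraMap_residueField_eq_zero.trans (hw ▸ hcol w r)) (by
      by_cases k2 : (ringChar (ResidueField S) : R) = 0
      · exact .inl (by rw [← map_natCast φ, k2, map_zero])
      refine .inr ⟨hc.resolve_left fun ⟨k, hk⟩ => ?_, map_natCast φ _ ▸ nzd_of_flat hφ.flat k2⟩
      let _ := hk.toField
      have h1 := ((Ne.isUnit (a := (ringChar (ResidueField S) : k)) fun h => k2 (by
        rw [← map_natCast k.subtype, h, map_zero])).map k.subtype).map φ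
      rw [map_natCast, map_natCast] at h1
      have h2 := (tower_cast A m pb π.domain_nontrivial h1).map e
      rw [map_natCast] at h2
      have h3 := h2.map (Ideal.Quotient.lift _ (residue S) fun z hz => (residue_eq_zero_iff _).2
        (le_maximalIdeal (fun e => hfs.top_ne_smul (by rw [e, Submodule.top_smul])) hz))
      rw [map_natCast, ringChar.Nat.cast_ringChar] at h3
      exact not_isUnit_zero h3) (s := []) (by simp)
  let _ := (ψ.comp φ).toAlgebra
  have : Module.Flat R C := hφ.flat.comp k3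
  refine ⟨C, _, _, ‹_›, good_proj k1 M k2, _, (maximalIdeal.isMaximal C).ne_top,
    fun y hy => k5.le ((RingHom.congr_fun k4 (φ y)).trans
      (Ideal.algebraMap_residueField_eq_zero.2 (hle ((hcol _ _).2 ?_))))⟩
  rw [← map_mul]
  exact map_dvd φ hy

end Pool.Agent.Lib.MP_9e3d42_al.AD
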